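import Pool.Agent.H829.GraphProducts

/-!
# Products given by rules which may depend on the graphs

Material for `MP_99abf8_co`: for fixed `n, r, a, b` there are graphs `F k` such that for every single
invariant rule the product of `F k` and `F l` has chromatic number at most `K (k + l + 1)` or more
than `2 ^ min k l`. The graphs contain, besides the shift graphs, long sequences of tuples of every
possible type.
-/

set_option autoImplicit false
set_option linter.unusedVariables false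

namespace Pool.Agent.H829.GraphProducts

open Finset

section join

variable {G H : FGraph} {c : ℕ} (f : H.V → G.V ⊕ Fin c)
  (h1 : ∀ u v x y, H.graph.Adj u v → f u = Sum.inl x → f v = Sum.inl y → G.graph.Adj x y)
  (h2 : ∀ u v s t, H.graph.Adj u v → f u = Sum.inr s → f v = Sum.inr t → s ≠ t)

include h1 h2

theorem chi_le_join : chi H ≤ chi G + c := by
  obtain ⟨d⟩ := colorable_chi G
  have e : H.graph.Coloring (Fin (chi G) ⊕ Fin c) :=
    SimpleGraph.Coloring.mk (fun u => Sum.map d id (f u)) (by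
      intro u v huv he
      rcases hu : f u with x | s <;> rcases hv : f v with y | t <;> rw [hu, hv] at he
      · exact d.valid (h1 u v x y huv hu hv) (Sum.inl_injective he)
      · exact absurd he (by simp)
      · exact absurd he (by simp)
      · exact h2 u v s t huv hu hv (Sum.inr_injective he))
  have h := e.colorable
  rw [Fintype.card_sum, Fintype.card_fin, Fintype.card_fin] at h
  exact chi_le h

theorem chif_le_join : chif H ≤ chif G + c := by
  classical
  refine le_of_forall_pos_le_add fun ε hε => ?_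
  obtain ⟨α, β, hβ, hαβ, g, hg, hgd⟩ := exists_frac G (r := chif G + ε) (by linarith)
  have h := chif_le (G := H) (C := Fin α ⊕ (Fin c × Fin β)) hβ
    (fun u => Sum.elim (fun x => (g x).map Function.Embedding.inl)
      (fun s => (({s} : Finset (Fin c)) ×ˢ (univ : Finset (Fin β))).map
        Function.Embedding.inr) (f u)) (by
      intro u
      rcases hu : f u with x | s
      · rw [Sum.elim_inl, card_map, hg]
      · rw [Sum.elim_inr, card_map, card_product, card_singleton, one_mul, card_univ,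
          Fintype.card_fin]) (by
      intro u v huv
      rcases hu : f u with x | s <;> rcases hv : f v with y | t
      · rw [Sum.elim_inl, Sum.elim_inl, Finset.disjoint_map]
        exact hgd x y (h1 u v x y huv hu hv)
      · rw [Sum.elim_inl, Sum.elim_inr, Finset.disjoint_left]
        intro w hw1 hw2
        rw [mem_map] at hw1 hw2
        obtain ⟨p, -, rfl⟩ := hw1
        obtain ⟨q, -, h6⟩ := hw2
        exact absurd h6 (by simp)
      · rw [Sum.elim_inl, Sum.elim_inr, Finset.disjoint_left]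
        intro w hw1 hw2
        rw [mem_map] at hw1 hw2
        obtain ⟨p, -, rfl⟩ := hw1
        obtain ⟨q, -, h6⟩ := hw2
        exact absurd h6 (by simp)
      · rw [Sum.elim_inr, Sum.elim_inr, Finset.disjoint_map, Finset.disjoint_left]
        intro w hw1 hw2
        rw [mem_product, mem_singleton] at hw1 hw2
        exact h2 u v s t huv hu hv (hw1.1.symm.trans hw2.1))
  have hβR : (0 : ℝ) < β := by exact_mod_cast hβ
  have h3 : (Fintype.card (Fin α ⊕ (Fin c × Fin β)) : ℝ) / β = (α : ℝ) / β + c := by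
    rw [Fintype.card_sum, Fintype.card_prod, Fintype.card_fin, Fintype.card_fin, Fintype.card_fin]
    push_cast
    field_simp
  rw [h3] at h
  linarith

end join

/-- the disjoint union of `G` and the graphs `A i` -/
def addG (G : FGraph) {ι : Type} [Fintype ι] (A : ι → FGraph) : FGraph where
  V := G.V ⊕ (Σ i, (A i).V)
  ne := G.ne.map Sum.inl
  graph :=
    { Adj := fun u v => (∃ x y, u = Sum.inl x ∧ v = Sum.inl y ∧ G.graph.Adj x y) ∨
        ∃ i x y, u = Sum.inr ⟨i, x⟩ ∧ v = Sum.inr ⟨i, y⟩ ∧ (A i).graph.Adj x y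
      symm := ⟨fun u v h => h.elim (fun ⟨x, y, h1, h2, h3⟩ => Or.inl ⟨y, x, h2, h1, h3.symm⟩)
        fun ⟨i, x, y, h1, h2, h3⟩ => Or.inr ⟨i, y, x, h2, h1, h3.symm⟩⟩
      loopless := ⟨fun u h => h.elim
        (fun ⟨x, y, h1, h2, h3⟩ => h3.ne (Sum.inl_injective (h1.symm.trans h2)))
        fun ⟨i, x, y, h1, h2, h3⟩ => h3.ne (by
          have h4 := Sum.inr_injective (h1.symm.trans h2)
          simpa using h4)⟩ }

theorem rel_addG_inl (G : FGraph) {ι : Type} [Fintype ι] (A : ι → FGraph) (x y : G.V) :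
    rel (addG G A) (Sum.inl x) (Sum.inl y) = rel G x y := by
  refine rel_congr ⟨fun h => Sum.inl_injective h, fun h => congrArg Sum.inl h⟩ ⟨?_, ?_⟩
  · rintro (⟨x', y', h1, h2, h3⟩ | ⟨i, x', y', h1, h2, h3⟩)
    · rw [Sum.inl_injective h1, Sum.inl_injective h2]
      exact h3
    · exact absurd h1 (by simp)
  · exact fun h => Or.inl ⟨x, y, rfl, rfl, h⟩

theorem rel_addG_inr (G : FGraph) {ι : Type} [Fintype ι] (A : ι → FGraph) (i : ι)
    (x y : (A i).V) : rel (addG G A) (Sum.inr ⟨i, x⟩) (Sum.inr ⟨i, y⟩) = rel (A i) x y := by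
  refine rel_congr ⟨fun h => ?_, fun h => by rw [h]⟩ ⟨?_, ?_⟩
  · have h4 := Sum.inr_injective h
    simpa using h4
  · rintro (⟨x', y', h1, h2, h3⟩ | ⟨i', x', y', h1, h2, h3⟩)
    · exact absurd h1 (by simp)
    · have h4 := Sum.inr_injective h1
      have h5 := Sum.inr_injective h2
      obtain rfl : i = i' := congrArg Sigma.fst h4
      have h6 : x = x' := by simpa using h4
      have h7 : y = y' := by simpa using h5
      rw [h6, h7]
      exact h3
  · exact fun h => Or.inr ⟨i, x, y, rfl, rfl, h⟩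

/-- for every fold type there is a sequence of `B + 1` tuples, any two of which have this type -/
def HasSeq (a B : ℕ) (G : FGraph) : Prop :=
  ∀ (G0 : FGraph) (x y : Fin a → G0.V), Fold G0.graph x y →
    ∃ z : Fin (B + 1) → Fin a → G.V, ∀ p q : Fin (B + 1), p < q →
      tp G (Sum.elim (z p) (z q)) = tp G0 (Sum.elim x y)

theorem HasSeq.map {a B : ℕ} {G G' : FGraph} (h : HasSeq a B G) {j : G.V → G'.V}
    (hj : ∀ x y, rel G' (j x) (j y) = rel G x y) : HasSeq a B G' := by
  intro G0 x y hF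
  obtain ⟨z, hz⟩ := h G0 x y hF
  exact ⟨fun p => j ∘ z p, fun p q hpq => (tp_comp hj (z p) (z q)).trans (hz p q hpq)⟩

theorem HasSeq.mono {a B B' : ℕ} {G : FGraph} (h : HasSeq a B G) (hB : B' ≤ B) :
    HasSeq a B' G := by
  intro G0 x y hF
  obtain ⟨z, hz⟩ := h G0 x y hF
  exact ⟨fun p => z (Fin.castLE (by omega) p), fun p q hpq => hz _ _ hpq⟩

theorem finite_rel : Finite Rel :=
  Finite.of_injective (fun r : Rel => match r with
    | .eq => (0 : Fin 3)
    | .adj => 1
    | .non => 2) (by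
      intro x y h
      cases x <;> cases y <;> simp_all)

/-- the types of the pairs of tuples as in `Fold` -/
def FT (a : ℕ) : Type :=
  {τ : Tp a // ∃ (G : FGraph) (x y : Fin a → G.V), Fold G.graph x y ∧ tp G (Sum.elim x y) = τ}

theorem exists_fold_ext (a : ℕ) : ∃ C0 : ℕ, ∀ (B : ℕ) (G : FGraph),
    ∃ (G' : FGraph) (j : G.V → G'.V), (∀ x y, rel G' (j x) (j y) = rel G x y) ∧
      HasSeq a B G' ∧ chi G' ≤ chi G + (a + 1) ∧ chif G' ≤ chif G + ((a + 1 : ℕ) : ℝ) ∧
      order G' ≤ order G + (B + 2) * C0 := by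
  classical
  have := finite_rel
  have : Finite (FT a) := by
    unfold FT
    infer_instance
  have : Fintype (FT a) := Fintype.ofFinite _
  choose A x y hF hτ using fun τ : FT a => τ.2
  refine ⟨∑ τ, order (A τ), fun B G => ?_⟩
  let Cp : FT a → FGraph := fun τ => copies (A τ) (B + 1) (x τ) (y τ) (hF τ)
  have hcol : ∀ τ, Nonempty ((Cp τ).graph.Coloring (Fin (a + 1))) := fun τ =>
    (colorable_chi (Cp τ)).mono (chi_copies (A τ) (B + 1) (x τ) (y τ) (hF τ))
  have col : ∀ τ, (Cp τ).graph.Coloring (Fin (a + 1)) := fun τ => Classical.choice (hcol τ)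
  let f : (addG G Cp).V → G.V ⊕ Fin (a + 1) := fun u =>
    Sum.elim Sum.inl (fun w => Sum.inr (col w.1 w.2)) u
  have hf1 : ∀ u v x y, (addG G Cp).graph.Adj u v → f u = Sum.inl x → f v = Sum.inl y →
      G.graph.Adj x y := by
    rintro u v x0 y0 (⟨x', y', rfl, rfl, h3⟩ | ⟨i', x', y', rfl, rfl, h3⟩) h4 h5
    · have h6 : x' = x0 := Sum.inl_injective h4
      have h7 : y' = y0 := Sum.inl_injective h5
      rw [← h6, ← h7]
      exact h3
    · exact absurd h4 (by simp [f])
  have hf2 : ∀ u v s t, (addG G Cp).graph.Adj u v → f u = Sum.inr s → f v = Sum.inr t →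
      s ≠ t := by
    rintro u v s t (⟨x', y', rfl, rfl, h3⟩ | ⟨i', x', y', rfl, rfl, h3⟩) h4 h5
    · exact absurd h4 (by simp [f])
    · have h6 : col i' x' = s := Sum.inr_injective h4
      have h7 : col i' y' = t := Sum.inr_injective h5
      rw [← h6, ← h7]
      exact (col i').valid h3
  refine ⟨addG G Cp, Sum.inl, rel_addG_inl G Cp, ?_, chi_le_join f hf1 hf2,
    chif_le_join f hf1 hf2, ?_⟩
  · intro G0 x0 y0 hF0
    let τ : FT a := ⟨tp G0 (Sum.elim x0 y0), G0, x0, y0, hF0, rfl⟩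
    refine ⟨fun p s => Sum.inr ⟨τ, cp (x τ) (y τ) p s⟩, fun p q hpq => ?_⟩
    have e1 : tp (addG G Cp) (Sum.elim
        ((fun u : (Cp τ).V => (Sum.inr ⟨τ, u⟩ : (addG G Cp).V)) ∘ cp (x τ) (y τ) p)
        ((fun u : (Cp τ).V => (Sum.inr ⟨τ, u⟩ : (addG G Cp).V)) ∘ cp (x τ) (y τ) q)) =
        tp (Cp τ) (Sum.elim (cp (x τ) (y τ) p) (cp (x τ) (y τ) q)) :=
      tp_comp (fun u v => rel_addG_inr G Cp τ u v) _ _
    exact e1.trans ((tp_copies (hF τ) hpq).trans (hτ τ))
  · have e1 : order (addG G Cp) = order G + ∑ τ, (B + 2) * order (A τ) := by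
      have e2 : order (addG G Cp) = Fintype.card (G.V ⊕ (Σ τ, (Cp τ).V)) := rfl
      rw [e2, Fintype.card_sum, Fintype.card_sigma]
      congr 1
      refine Finset.sum_congr rfl fun τ _ => ?_
      have e3 : Fintype.card (Cp τ).V = Fintype.card (Option (Fin (B + 1)) × (A τ).V) := rfl
      rw [e3, Fintype.card_prod, Fintype.card_option, Fintype.card_fin]
      rfl
    rw [e1, Finset.mul_sum]

theorem noFold_at {r a b n m B : ℕ} {Q : Rule r a b} (hQ : Invariant n Q)
    (ha : (a + a) + n ≤ m) (hb : (b + b) + n ≤ m) {G1 H1 : FGraph} (hG1 : Sat m G1)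
    (hH1 : Sat m H1) (hGs : HasSeq a B G1) (hHs : HasSeq b B H1)
    (hB : chi (prodOf Q G1 H1) ≤ B) : NoFold (redRule m Q) := by
  classical
  intro G H i x y x' y' hF hF' hne hr
  obtain ⟨z, hz⟩ := hGs G x y hF
  obtain ⟨z', hz'⟩ := hHs H x' y' hF'
  obtain ⟨c⟩ := (colorable_chi (prodOf Q G1 H1)).mono hB
  let w : Fin (B + 1) → (prodOf Q G1 H1).V := fun p => (i, z p, z' p)
  have hadj : ∀ p q : Fin (B + 1), p < q → (prodOf Q G1 H1).graph.Adj (w p) (w q) := by
    intro p q hpq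
    refine ⟨fun he => ?_, Or.inl ?_⟩
    · have h2 : z p = z q := (Prod.ext_iff.1 (Prod.ext_iff.1 he).2).1
      have h3 : z' p = z' q := (Prod.ext_iff.1 (Prod.ext_iff.1 he).2).2
      refine hne ?_
      have h4 : x = y := funext fun s => by
        have h5 : rel G1 (z p s) (z q s) = rel G (x s) (y s) :=
          congrFun (congrFun (hz p q hpq) (Sum.inl s)) (Sum.inr s)
        rw [← rel_eq_iff, ← h5, rel_eq_iff, h2]
      have h5 : x' = y' := funext fun s => by
        have h5 : rel H1 (z' p s) (z' q s) = rel H (x' s) (y' s) :=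
          congrFun (congrFun (hz' p q hpq) (Sum.inl s)) (Sum.inr s)
        rw [← rel_eq_iff, ← h5, rel_eq_iff, h3]
      rw [h4, h5]
    · show Q i i G1 (Sum.elim (z p) (z q)) H1 (Sum.elim (z' p) (z' q))
      rw [← red_iff hQ ha hb hG1 hH1, hz p q hpq, hz' p q hpq]
      exact hr
  have hinj : Function.Injective fun p => c (w p) := by
    intro p q he
    by_contra hpq
    rcases lt_or_gt_of_ne hpq with h | h
    · exact c.valid (hadj p q h) he
    · exact c.valid (hadj q p h) he.symm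
  have h2 := Fintype.card_le_of_injective _ hinj
  rw [Fintype.card_fin, Fintype.card_fin] at h2
  omega

theorem adj_of_rel {G G' : FGraph} {j : G.V → G'.V}
    (hj : ∀ x y, rel G' (j x) (j y) = rel G x y) {x y : G.V} (h : G.graph.Adj x y) :
    G'.graph.Adj (j x) (j y) := by
  rw [← rel_adj_iff, hj, rel_adj_iff]
  exact h

theorem dichotomy (n r a b : ℕ) :
    ∃ (F : ℕ → FGraph) (K : ℝ), (∀ k, k ≤ chi (F k) ∧ (chi (F k) : ℝ) ≤ k + K ∧
      (order (F k) : ℝ) ≤ K * 4 ^ k) ∧
      ∀ (k l : ℕ) (Q : Rule r a b), Invariant n Q →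
        (chi (prodOf Q (F k) (F l)) ≤ 2 ^ min k l ∨
          ∃ Φ : ℕ → ℕ → ℕ, ∀ G H : FGraph, chi (prodOf Q G H) ≤ Φ (chi G) (chi H)) →
        (chi (prodOf Q (F k) (F l)) : ℝ) ≤ K * (k + l + 1) := by
  classical
  set m : ℕ := (a + a) + (b + b) + n with hm
  have ha : (a + a) + n ≤ m := by omega
  have hb : (b + b) + n ≤ m := by omega
  obtain ⟨C, hC, hext⟩ := sat_ext m
  obtain ⟨Ca, hCa⟩ := exists_fold_ext a
  obtain ⟨Cb, hCb⟩ := exists_fold_ext b
  have key : ∀ k : ℕ, ∃ G : FGraph, k + 1 ≤ chi G ∧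
      chi G ≤ k + 1 + (a + 1) + (b + 1) + (m + 1) ∧
      chif G ≤ 4 + ((a + 1 : ℕ) : ℝ) + ((b + 1 : ℕ) : ℝ) + (m + 1) ∧
      order G ≤ (C * (1 + Ca + Cb)) * 4 ^ (k + 1) ∧ Sat m G ∧ HasSeq a (2 ^ k) G ∧
      HasSeq b (2 ^ k) G := by
    intro k
    obtain ⟨G1, j1, hj1, hs1, hc1, hf1, ho1⟩ := hCa (2 ^ k) (shift k)
    obtain ⟨G2, j2, hj2, hs2, hc2, hf2, ho2⟩ := hCb (2 ^ k) G1
    obtain ⟨G3, j3, hj3, hsat, -, hc3, hf3, ho3⟩ := hext G2
    refine ⟨G3, ?_, ?_, ?_, ?_, hsat, (hs1.map hj2).map hj3, hs2.map hj3⟩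
    · rw [← chi_shift k]
      exact (chi_mono j1 fun x y h => adj_of_rel hj1 h).trans
        ((chi_mono j2 fun x y h => adj_of_rel hj2 h).trans
          (chi_mono j3 fun x y h => adj_of_rel hj3 h))
    · rw [chi_shift] at hc1
      omega
    · have := chif_shift k
      linarith
    · have e1 : 2 ^ k + 2 ≤ 4 ^ (k + 1) := by
        have e2 : 2 ^ k ≤ 4 ^ k := Nat.pow_le_pow_left (by norm_num) k
        have e3 : 1 ≤ 4 ^ k := Nat.one_le_pow _ _ (by norm_num)
        rw [pow_succ]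
        omega
      have e2 := order_shift k
      have e3 : (2 ^ k + 2) * Ca ≤ 4 ^ (k + 1) * Ca := Nat.mul_le_mul_right _ e1
      have e4 : (2 ^ k + 2) * Cb ≤ 4 ^ (k + 1) * Cb := Nat.mul_le_mul_right _ e1
      have e5 : order G2 ≤ 4 ^ (k + 1) + 4 ^ (k + 1) * Ca + 4 ^ (k + 1) * Cb := by omega
      calc order G3 ≤ C * order G2 := ho3
        _ ≤ C * (4 ^ (k + 1) + 4 ^ (k + 1) * Ca + 4 ^ (k + 1) * Cb) := Nat.mul_le_mul_left _ e5
        _ = (C * (1 + Ca + Cb)) * 4 ^ (k + 1) := by ring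
  choose F hF1 hF2 hF3 hF4 hF5 hF6 hF7 using key
  set C' : ℕ := C * (1 + Ca + Cb) with hC'
  have hC'0 : 0 < C' := Nat.mul_pos hC (by omega)
  set X : ℝ := 4 + ((a + 1 : ℕ) : ℝ) + ((b + 1 : ℕ) : ℝ) + (m + 1) with hX
  have hX0 : 0 ≤ X := by positivity
  set Kc : ℝ := ((r + 1) * (cst a * cst b) : ℕ) * (X ^ a * X ^ b) with hKc
  have hKc0 : 0 ≤ Kc := by positivity
  set K1 : ℝ := Kc * (Real.log (r + 1) + (a + b) * (Real.log C' + Real.log 4)) + 1 with hK1
  have hC1 : (1 : ℝ) ≤ C' := by exact_mod_cast hC'0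
  have hK10 : 0 ≤ K1 := by
    have hl4 : 0 ≤ Real.log 4 := Real.log_nonneg (by norm_num)
    have hlC : 0 ≤ Real.log C' := Real.log_nonneg hC1
    have hr1 : 0 ≤ Real.log ((r : ℝ) + 1) := Real.log_nonneg (by
      have : (0 : ℝ) ≤ r := Nat.cast_nonneg r
      linarith)
    positivity
  have hm0 : (0 : ℝ) ≤ m := Nat.cast_nonneg m
  have ha0 : (0 : ℝ) ≤ a := Nat.cast_nonneg a
  have hb0 : (0 : ℝ) ≤ b := Nat.cast_nonneg b
  refine ⟨F, (1 + (a + 1) + (b + 1) + (m + 1)) + 4 * C' + 2 * K1, fun k => ⟨?_, ?_, ?_⟩,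
    fun k l Q hQ hor => ?_⟩
  · exact (Nat.le_succ k).trans (hF1 k)
  · have h2 : (chi (F k) : ℝ) ≤ k + 1 + (a + 1) + (b + 1) + (m + 1) := by exact_mod_cast hF2 k
    linarith
  · have h1 : (order (F k) : ℝ) ≤ C' * 4 ^ (k + 1) := by exact_mod_cast hF4 k
    have h2 : (0 : ℝ) < 4 ^ k := by positivity
    refine h1.trans ?_
    rw [pow_succ]
    have h3 : (0 : ℝ) ≤ ((1 + (a + 1) + (b + 1) + (m + 1)) + 2 * K1) * 4 ^ k := by positivity
    nlinarith
  · have hNF : NoFold (redRule m Q) := by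
      rcases hor with hle | ⟨Φ, hΦ⟩
      · exact noFold_at hQ ha hb (hF5 k) (hF5 l)
          ((hF6 k).mono (Nat.pow_le_pow_right (by norm_num) (min_le_left k l)))
          ((hF7 l).mono (Nat.pow_le_pow_right (by norm_num) (min_le_right k l))) hle
      · exact noFold_red hQ ha hb hΦ
    have h1 : chif (prodOf Q (F k) (F l)) ≤ Kc := by
      rw [prodOf_eq hQ ha hb (hF5 _) (hF5 _)]
      refine (chif_of_noFold hNF _ _).trans ?_
      rw [hKc]
      refine mul_le_mul_of_nonneg_left ?_ (Nat.cast_nonneg _)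
      have e1 := pow_le_pow_left₀ (chif_nonneg _) (hF3 k) a
      have e2 := pow_le_pow_left₀ (chif_nonneg _) (hF3 l) b
      exact mul_le_mul e1 e2 (pow_nonneg (chif_nonneg _) _) (by positivity)
    have h2 := chi_bound (k := k) (l := l) hKc0 hC'0 h1 (order_prodOf Q _ _) (hF4 k) (hF4 l)
    rw [← hK1] at h2
    have hk : (0 : ℝ) ≤ k := Nat.cast_nonneg k
    have hl : (0 : ℝ) ≤ l := Nat.cast_nonneg l
    have hp : (0 : ℝ) ≤ ((1 + ((a : ℝ) + 1) + (b + 1) + (m + 1)) + 4 * C') * (k + l + 1) := by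
      positivity
    nlinarith

/-- No product given by invariant rules, where the rule may depend on the graphs, is
`c`-multiplicative. -/
theorem not_multiplicative_adaptive {n r a b : ℕ} (Q : FGraph → FGraph → Rule r a b)
    (hQ : ∀ G H, Invariant n (Q G H)) {c : ℝ} (hc : 0 < c) :
    ¬ Multiplicative c (fun G H => prodOf (Q G H) G H) := by
  intro hM
  obtain ⟨F, K, hF, h⟩ := dichotomy n r a b
  have hK : 0 ≤ K := by
    have h1 := (hF 0).2.1
    have h2 : (0 : ℝ) ≤ chi (F 0) := Nat.cast_nonneg _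
    push_cast at h1
    by_contra hcon
    push Not at hcon
    linarith
  have ht := (tendsto_pow_const_mul_const_pow_of_abs_lt_one 2 (r := (1 / 2 : ℝ)) (by
    rw [abs_of_nonneg (by norm_num)]
    norm_num)).const_mul 4
  rw [mul_zero] at ht
  have h1 := ht.eventually (gt_mem_nhds one_pos)
  have h2 := Filter.eventually_ge_atTop (α := ℕ) (max 1 ⌈K⌉₊)
  have h3 := Filter.eventually_gt_atTop (α := ℕ) ⌈3 * K / c⌉₊
  obtain ⟨k, hk1, hk2, hk3⟩ := (h1.and (h2.and h3)).exists
  have hk4 : 1 ≤ k := le_trans (le_max_left _ _) hk2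
  have hk5 : K ≤ k := (Nat.le_ceil K).trans (by exact_mod_cast le_trans (le_max_right _ _) hk2)
  have hk6 : 3 * K / c < k := (Nat.le_ceil _).trans_lt (by exact_mod_cast hk3)
  have hk7 : (1 : ℝ) ≤ k := by exact_mod_cast hk4
  have hlow := (hM (F k) (F k)).1
  have hupp : (chi (prodOf (Q (F k) (F k)) (F k) (F k)) : ℝ) ≤ chi (F k) * chi (F k) := by
    exact_mod_cast (hM (F k) (F k)).2
  have hFk := (hF k).2.1
  have hFk0 : (0 : ℝ) ≤ chi (F k) := Nat.cast_nonneg _
  have hFk1 : (k : ℝ) ≤ chi (F k) := by exact_mod_cast (hF k).1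
  have hsmall : (4 : ℝ) * (k : ℝ) ^ 2 < 2 ^ k := by
    have e1 : (4 : ℝ) * ((k : ℝ) ^ 2 * (1 / 2) ^ k) * 2 ^ k = 4 * (k : ℝ) ^ 2 := by
      rw [mul_assoc, mul_assoc, ← mul_pow]
      norm_num
    rw [← e1]
    have e2 : (0 : ℝ) < 2 ^ k := by positivity
    nlinarith
  rcases le_or_gt (chi (prodOf (Q (F k) (F k)) (F k) (F k))) (2 ^ min k k) with h4' | h4
  · have h4 := h k k (Q (F k) (F k)) (hQ _ _) (Or.inl h4')
    have h5 : c * ((k : ℝ) * k) ≤ K * (k + k + 1) :=
      (mul_le_mul_of_nonneg_left (mul_le_mul hFk1 hFk1 (by linarith) hFk0) hc.le).trans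
        (hlow.trans h4)
    have h6 : K * ((k : ℝ) + k + 1) ≤ (3 * K) * k := by nlinarith
    have h7 : (c * k) * (k : ℝ) ≤ (3 * K) * k := by linarith
    have h8 := le_of_mul_le_mul_right h7 (by linarith)
    rw [div_lt_iff₀ hc] at hk6
    linarith
  · rw [min_self] at h4
    have h5 : (2 : ℝ) ^ k < chi (prodOf (Q (F k) (F k)) (F k) (F k)) := by exact_mod_cast h4
    have h6 : (chi (F k) : ℝ) * chi (F k) ≤ 4 * (k : ℝ) ^ 2 := by
      have h7 : (chi (F k) : ℝ) ≤ 2 * k := by linarith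
      nlinarith
    linarith

end Pool.Agent.H829.GraphProducts
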