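import Mathlib

/-!
# Products of graphs and chromatic numbers

Material for `MP_99abf8_co`: chromatic and fractional chromatic numbers, the lexicographic product
and the Cartesian sum, shift graphs, products given by rules which are invariant under the pebble
game, and extensions of graphs in which every pattern of adjacency to few vertices is realised.
-/

set_option autoImplicit false
set_option linter.unusedVariables false

namespace Pool.Agent.H829.GraphProducts

open Finset

/-- A finite simple graph with at least one vertex. -/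
structure FGraph where
  V : Type
  [fin : Fintype V]
  [ne : Nonempty V]
  graph : SimpleGraph V

attribute [instance] FGraph.fin FGraph.ne

/-- The number of vertices. -/
def order (G : FGraph) : ℕ := Fintype.card G.V

/-- The chromatic number: the least `k` such that there is a proper colouring with `k` colours. -/
noncomputable def chi (G : FGraph) : ℕ := sInf {k : ℕ | G.graph.Colorable k}

/-- The fractional chromatic number: the infimum of the `a / b` such that one can give each vertex
a set of `b` out of `a` colours, with disjoint sets for adjacent vertices. -/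
noncomputable def chif (G : FGraph) : ℝ :=
  sInf {r : ℝ | ∃ a b : ℕ, 0 < b ∧ r = (a : ℝ) / b ∧ ∃ f : G.V → Finset (Fin a),
    (∀ v, (f v).card = b) ∧ ∀ u v, G.graph.Adj u v → Disjoint (f u) (f v)}

/-- The product `P` is `c`-multiplicative. -/
def Multiplicative (c : ℝ) (P : FGraph → FGraph → FGraph) : Prop :=
  ∀ G H : FGraph, c * (chi G * chi H) ≤ (chi (P G H) : ℝ) ∧ chi (P G H) ≤ chi G * chi H

/-- The number of vertices of the product is bounded by a polynomial in the numbers of vertices of
the factors. -/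
def PolySize (P : FGraph → FGraph → FGraph) : Prop :=
  ∃ D : ℕ, ∀ G H : FGraph, order (P G H) ≤ (order G * order H + 1) ^ D

/-- The lexicographic product. -/
def lex (G H : FGraph) : FGraph where
  V := G.V × H.V
  graph :=
    { Adj := fun p q => G.graph.Adj p.1 q.1 ∨ (p.1 = q.1 ∧ H.graph.Adj p.2 q.2)
      symm := ⟨fun p q h => h.elim (fun h => Or.inl h.symm) fun h => Or.inr ⟨h.1.symm, h.2.symm⟩⟩
      loopless := ⟨fun p h => h.elim (fun h => h.ne rfl) fun h => h.2.ne rfl⟩ }

/-- The Cartesian sum. -/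
def csum (G H : FGraph) : FGraph where
  V := G.V × H.V
  graph :=
    { Adj := fun p q => G.graph.Adj p.1 q.1 ∨ H.graph.Adj p.2 q.2
      symm := ⟨fun p q h => h.elim (fun h => Or.inl h.symm) fun h => Or.inr h.symm⟩
      loopless := ⟨fun p h => h.elim (fun h => h.ne rfl) fun h => h.ne rfl⟩ }

/-- The three possible relations between two vertices of a graph: equal, adjacent, or different and
not adjacent. -/
inductive Rel
  | eq
  | adj
  | non

open Classical in
/-- The relation between the vertices `x` and `y`. -/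
noncomputable def rel (G : FGraph) (x y : G.V) : Rel :=
  if x = y then Rel.eq else if G.graph.Adj x y then Rel.adj else Rel.non

theorem rel_comm (G : FGraph) (x y : G.V) : rel G x y = rel G y x := by
  unfold rel
  by_cases h : x = y
  · rw [if_pos h, if_pos h.symm]
  · rw [if_neg h, if_neg (Ne.symm h)]
    by_cases h2 : G.graph.Adj x y
    · rw [if_pos h2, if_pos h2.symm]
    · rw [if_neg h2, if_neg (fun h3 => h2 h3.symm)]

/-- The type of a tuple of vertices: all the relations between its entries. -/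
noncomputable def tp (G : FGraph) {ι : Type} (z : ι → G.V) : ι → ι → Rel :=
  fun s t => rel G (z s) (z t)

/-- The possible types of a pair of `a`-tuples. -/
abbrev Tp (a : ℕ) : Type := Fin a ⊕ Fin a → Fin a ⊕ Fin a → Rel

/-- The local product with the rule `R`, of any dimension `(a, b)` and with `r + 1` kinds of
vertices. The vertices are the triples `(i, x, x')`, where `i` is the kind, `x` an `a`-tuple of
vertices of `G`, and `x'` a `b`-tuple of vertices of `H`. Different vertices `(i, x, x')` and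
`(j, y, y')` are adjacent if the rule `R i j` holds, in one of the two orders, for the type of the
pair `(x, y)` in `G` and the type of the pair `(x', y')` in `H`. -/
noncomputable def locProd {r a b : ℕ} (R : Fin (r + 1) → Fin (r + 1) → Tp a → Tp b → Prop)
    (G H : FGraph) : FGraph where
  V := Fin (r + 1) × (Fin a → G.V) × (Fin b → H.V)
  graph :=
    { Adj := fun u v => u ≠ v ∧
        (R u.1 v.1 (tp G (Sum.elim u.2.1 v.2.1)) (tp H (Sum.elim u.2.2 v.2.2)) ∨
          R v.1 u.1 (tp G (Sum.elim v.2.1 u.2.1)) (tp H (Sum.elim v.2.2 u.2.2)))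
      symm := ⟨fun u v h => ⟨h.1.symm, h.2.symm⟩⟩
      loopless := ⟨fun u h => h.1 rfl⟩ }

/-! ### Colourings -/

theorem chi_le {G : FGraph} {k : ℕ} (h : G.graph.Colorable k) : chi G ≤ k := Nat.sInf_le h

theorem colorable_chi (G : FGraph) : G.graph.Colorable (chi G) :=
  Nat.sInf_mem (s := {k : ℕ | G.graph.Colorable k}) ⟨_, G.graph.colorable_of_fintype⟩

theorem colorable_of_cover {V C : Type} [Fintype V] [Fintype C] (G : SimpleGraph V)
    (b t : ℕ) (f : V → Finset C) (hb : ∀ v, b ≤ (f v).card)
    (hf : ∀ u v, G.Adj u v → Disjoint (f u) (f v))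
    (h : Fintype.card V * (Fintype.card C - b) ^ t < Fintype.card C ^ t) : G.Colorable t := by
  classical
  obtain ⟨c, hc⟩ : ∃ c : Fin t → C, ∀ v, ∃ s, c s ∈ f v := by
    by_contra hcon
    push Not at hcon
    have h1 : (univ : Finset (Fin t → C)) ⊆
        (univ : Finset V).biUnion fun v => Fintype.piFinset fun _ : Fin t => (f v)ᶜ := by
      intro c _
      obtain ⟨v, hv⟩ := hcon c
      simp only [mem_biUnion, mem_univ, true_and, Fintype.mem_piFinset, mem_compl]
      exact ⟨v, hv⟩
    have h3 := (Finset.card_le_card h1).trans Finset.card_biUnion_le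
    have h4 : ∀ v : V, (Fintype.piFinset fun _ : Fin t => (f v)ᶜ).card ≤
        (Fintype.card C - b) ^ t := by
      intro v
      rw [Fintype.card_piFinset]
      simp only [Finset.prod_const, Finset.card_univ, Fintype.card_fin, Finset.card_compl]
      exact Nat.pow_le_pow_left (Nat.sub_le_sub_left (hb v) _) _
    have h5 := h3.trans (Finset.sum_le_card_nsmul _ _ _ fun v _ => h4 v)
    simp only [Finset.card_univ, Fintype.card_pi, Finset.prod_const, Fintype.card_fin,
      smul_eq_mul] at h5
    omega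
  choose g hg using hc
  refine ⟨SimpleGraph.Coloring.mk g fun {u v} huv he => ?_⟩
  exact Finset.disjoint_left.1 (hf u v huv) (hg u) (by rw [he]; exact hg v)

theorem chif_nonneg (G : FGraph) : 0 ≤ chif G := by
  refine Real.sInf_nonneg ?_
  rintro r ⟨a, b, hb, rfl, -⟩
  positivity

theorem chif_le {G : FGraph} {C : Type} [Fintype C] {b : ℕ} (hb : 0 < b) (f : G.V → Finset C)
    (hf : ∀ v, (f v).card = b) (hd : ∀ u v, G.graph.Adj u v → Disjoint (f u) (f v)) :
    chif G ≤ (Fintype.card C : ℝ) / b := by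
  classical
  refine csInf_le ⟨0, ?_⟩ ?_
  · rintro r ⟨a, b, hb, rfl, -⟩
    positivity
  · refine ⟨Fintype.card C, b, hb, rfl, fun v => (f v).map (Fintype.equivFin C).toEmbedding,
      fun v => by rw [Finset.card_map, hf v], fun u v h => ?_⟩
    rw [Finset.disjoint_map]
    exact hd u v h

theorem exists_frac (G : FGraph) {r : ℝ} (hr : chif G < r) :
    ∃ a b : ℕ, 0 < b ∧ (a : ℝ) / b < r ∧ ∃ f : G.V → Finset (Fin a),
      (∀ v, (f v).card = b) ∧ ∀ u v, G.graph.Adj u v → Disjoint (f u) (f v) := by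
  classical
  obtain ⟨s, ⟨a, b, hb, rfl, hf⟩, hs⟩ := exists_lt_of_csInf_lt (by
    obtain ⟨c⟩ := G.graph.colorable_of_fintype
    refine ⟨_, Fintype.card G.V, 1, one_pos, rfl, fun v => {c v}, fun v => card_singleton _,
      fun u v h => ?_⟩
    rw [Finset.disjoint_singleton]
    exact c.valid h) hr
  exact ⟨a, b, hb, hs, hf⟩

/-- Lovász: `χ ≤ 1 + χ_f log n`. -/
theorem chi_le_log (G : FGraph) : (chi G : ℝ) ≤ chif G * Real.log (order G) + 1 := by
  have hN : (1 : ℝ) ≤ order G := by
    have : 0 < order G := Fintype.card_pos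
    exact_mod_cast this
  have hlog : 0 ≤ Real.log (order G) := Real.log_nonneg hN
  have key : ∀ r : ℝ, chif G < r → (chi G : ℝ) ≤ r * Real.log (order G) + 1 := by
    intro r hr
    obtain ⟨a, b, hb, hab, f, hf, hd⟩ := exists_frac G hr
    have hr0 : 0 < r := (chif_nonneg G).trans_lt hr
    obtain ⟨v0⟩ := G.ne
    have hba : b ≤ a := by
      rw [← hf v0]
      exact (Finset.card_le_univ _).trans (by rw [Fintype.card_fin])
    have ha : 0 < a := hb.trans_le hba
    set t : ℕ := max 1 ⌈r * Real.log (order G)⌉₊ with ht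
    have ht1 : 1 ≤ t := le_max_left _ _
    have ht2 : r * Real.log (order G) ≤ t := by
      refine (Nat.le_ceil _).trans ?_
      exact_mod_cast le_max_right _ _
    have ht3 : (t : ℝ) ≤ r * Real.log (order G) + 1 := by
      rw [ht, Nat.cast_max]
      refine max_le ?_ ?_
      · have : 0 ≤ r * Real.log (order G) := mul_nonneg hr0.le hlog
        push_cast
        linarith
      · exact (Nat.ceil_lt_add_one (mul_nonneg hr0.le hlog)).le
    have haR : (0 : ℝ) < a := by exact_mod_cast ha
    have hbR : (0 : ℝ) < b := by exact_mod_cast hb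
    have htR : (0 : ℝ) < t := by exact_mod_cast ht1
    refine le_trans ?_ ht3
    have hcol : G.graph.Colorable t := by
      refine colorable_of_cover G.graph b t f (fun v => (hf v).ge) hd ?_
      rw [Fintype.card_fin]
      have h1 : ((order G : ℝ) * ((a : ℝ) - b) ^ t) < (a : ℝ) ^ t := by
        have h2 : (a : ℝ) - b = a * (1 - b / a) := by field_simp
        have h3 : (1 - (b : ℝ) / a) ^ t ≤ Real.exp (-((b : ℝ) / a)) ^ t := by
          refine pow_le_pow_left₀ ?_ ?_ _
          · rw [sub_nonneg, div_le_one haR]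
            exact_mod_cast hba
          · have := Real.add_one_le_exp (-((b : ℝ) / a))
            linarith
        have h4 : Real.exp (-((b : ℝ) / a)) ^ t = Real.exp (-(t * ((b : ℝ) / a))) := by
          rw [← Real.exp_nat_mul]
          congr 1
          ring
        have h5 : Real.log (order G) < t * ((b : ℝ) / a) := by
          have h6 : r⁻¹ < (b : ℝ) / a := by
            rw [inv_lt_comm₀ hr0 (div_pos hbR haR), inv_div]
            exact hab
          calc Real.log (order G) = r⁻¹ * (r * Real.log (order G)) := by field_simp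
            _ ≤ r⁻¹ * t := mul_le_mul_of_nonneg_left ht2 (inv_nonneg.2 hr0.le)
            _ = t * r⁻¹ := mul_comm _ _
            _ < t * ((b : ℝ) / a) := mul_lt_mul_of_pos_left h6 htR
        have h7 : (order G : ℝ) * Real.exp (-(t * ((b : ℝ) / a))) < 1 := by
          have h8 : (order G : ℝ) = Real.exp (Real.log (order G)) :=
            (Real.exp_log (by linarith)).symm
          rw [h8, ← Real.exp_add, Real.exp_lt_one_iff]
          linarith
        rw [h2, mul_pow]
        calc (order G : ℝ) * ((a : ℝ) ^ t * (1 - b / a) ^ t)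
            ≤ (order G : ℝ) * ((a : ℝ) ^ t * Real.exp (-(t * ((b : ℝ) / a)))) := by
              rw [← h4]
              gcongr
          _ = (a : ℝ) ^ t * ((order G : ℝ) * Real.exp (-(t * ((b : ℝ) / a)))) := by ring
          _ < (a : ℝ) ^ t * 1 := mul_lt_mul_of_pos_left h7 (pow_pos haR _)
          _ = (a : ℝ) ^ t := mul_one _
      have h9 : ((a - b : ℕ) : ℝ) = (a : ℝ) - b := Nat.cast_sub hba
      rw [← h9] at h1
      exact_mod_cast h1
    exact_mod_cast chi_le hcol
  refine le_of_forall_pos_le_add fun ε hε => ?_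
  have h1 := key (chif G + ε / (1 + Real.log (order G))) (by
    have : 0 < ε / (1 + Real.log (order G)) := by positivity
    linarith)
  have h2 : ε / (1 + Real.log (order G)) * Real.log (order G) ≤ ε := by
    rw [div_mul_eq_mul_div, div_le_iff₀ (by positivity)]
    nlinarith
  nlinarith

/-! ### The lexicographic product -/

theorem lex_upper (G H : FGraph) : chi (lex G H) ≤ chi G * chi H := by
  obtain ⟨c⟩ := colorable_chi G
  obtain ⟨d⟩ := colorable_chi H
  refine chi_le ?_
  have : (lex G H).graph.Coloring (Fin (chi G) × Fin (chi H)) :=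
    SimpleGraph.Coloring.mk (fun p => (c p.1, d p.2)) (by
      rintro p q (h | ⟨h1, h2⟩) he
      · exact c.valid h (Prod.ext_iff.1 he).1
      · exact d.valid h2 (Prod.ext_iff.1 he).2)
  have h := this.colorable
  rwa [Fintype.card_prod, Fintype.card_fin, Fintype.card_fin] at h

theorem chi_pos (G : FGraph) : 0 < chi G := by
  obtain ⟨v⟩ := G.ne
  obtain ⟨c⟩ := colorable_chi G
  exact (c v).pos

theorem lex_lower (G H : FGraph) :
    ((chi G : ℝ) * chi H) ≤ (1 + Real.log (order G)) * chi (lex G H) := by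
  classical
  obtain ⟨c⟩ := colorable_chi (lex G H)
  have hcard : ∀ x : G.V, chi H ≤ ((univ : Finset H.V).image fun y => c (x, y)).card := by
    intro x
    refine chi_le ?_
    have d : H.graph.Coloring ((univ : Finset H.V).image fun y => c (x, y)) :=
      SimpleGraph.Coloring.mk (fun y => ⟨c (x, y), mem_image_of_mem _ (mem_univ y)⟩) (by
        intro y z h he
        exact c.valid (v := ((x, y) : G.V × H.V)) (w := (x, z)) (Or.inr ⟨rfl, h⟩)
          (Subtype.ext_iff.1 he))
    have h := d.colorable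
    rwa [Fintype.card_coe] at h
  have hsub : ∀ x : G.V, ∃ S : Finset (Fin (chi (lex G H))),
      (S ⊆ (univ : Finset H.V).image fun y => c (x, y)) ∧ S.card = chi H := fun x =>
    Finset.exists_subset_card_eq (hcard x)
  choose S hS hSc using hsub
  have hH := chi_pos H
  have h1 : chif G ≤ (chi (lex G H) : ℝ) / chi H := by
    have h2 := chif_le hH S hSc (by
      intro u v huv
      rw [Finset.disjoint_left]
      intro s hs hs'
      obtain ⟨y, -, hy⟩ := mem_image.1 (hS u hs)
      obtain ⟨z, -, hz⟩ := mem_image.1 (hS v hs')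
      exact c.valid (v := ((u, y) : G.V × H.V)) (w := (v, z)) (Or.inl huv) (hy.trans hz.symm))
    rwa [Fintype.card_fin] at h2
  have h2 : chi H ≤ chi (lex G H) := by
    obtain ⟨x⟩ := G.ne
    exact (hcard x).trans ((Finset.card_le_univ _).trans (by rw [Fintype.card_fin]))
  have h3 := chi_le_log G
  have hN : (1 : ℝ) ≤ order G := by
    have : 0 < order G := Fintype.card_pos
    exact_mod_cast this
  have hlog : 0 ≤ Real.log (order G) := Real.log_nonneg hN
  have hHR : (0 : ℝ) < chi H := by exact_mod_cast hH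
  have h2R : (chi H : ℝ) ≤ chi (lex G H) := by exact_mod_cast h2
  calc (chi G : ℝ) * chi H
      ≤ (chif G * Real.log (order G) + 1) * chi H := by gcongr
    _ ≤ ((chi (lex G H) : ℝ) / chi H * Real.log (order G) + 1) * chi H := by gcongr
    _ = chi (lex G H) * Real.log (order G) + chi H := by field_simp
    _ ≤ (1 + Real.log (order G)) * chi (lex G H) := by nlinarith

/-! ### Shift graphs -/

/-- The shift graph on the pairs `i < j` of numbers below `2 ^ (k + 1)`; the pairs `(i, j)` and
`(j, l)` are adjacent. -/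
def shift (k : ℕ) : FGraph where
  V := {p : Fin (2 ^ (k + 1)) × Fin (2 ^ (k + 1)) // p.1 < p.2}
  ne := ⟨⟨(⟨0, by positivity⟩, ⟨1, Nat.one_lt_two_pow (Nat.succ_ne_zero k)⟩), by
    simp [Fin.lt_def]⟩⟩
  graph :=
    { Adj := fun p q => p.1.2 = q.1.1 ∨ q.1.2 = p.1.1
      symm := ⟨fun p q h => h.symm⟩
      loopless := ⟨fun p h => h.elim (fun h => p.2.ne h.symm) fun h => p.2.ne h.symm⟩ }

theorem exists_bit {i j m : ℕ} (hij : i < j) (hj : j < 2 ^ m) :
    ∃ t : Fin m, i.testBit t = false ∧ j.testBit t = true := by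
  by_contra hcon
  push Not at hcon
  have h1 : j = j &&& i := by
    refine Nat.eq_of_testBit_eq fun t => ?_
    rw [Nat.testBit_and]
    by_cases hjt : j.testBit t = true
    · have ht : t < m := by
        by_contra htm
        push Not at htm
        have h2 : j.testBit t = false :=
          Nat.testBit_lt_two_pow (hj.trans_le (Nat.pow_le_pow_right (by norm_num) htm))
        rw [h2] at hjt
        exact absurd hjt (by decide)
      have h3 : i.testBit t = true := by
        by_contra h4
        exact hcon ⟨t, ht⟩ (Bool.eq_false_iff.2 h4) hjt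
      rw [h3, hjt]
      rfl
    · rw [Bool.eq_false_iff.2 hjt]
      rfl
  have h2 : j ≤ i := by
    rw [h1]
    exact Nat.and_le_right
  omega

theorem chi_shift (k : ℕ) : chi (shift k) = k + 1 := by
  classical
  refine le_antisymm (chi_le ?_) ?_
  · have h : ∀ p : (shift k).V, ∃ t : Fin (k + 1), (p.1.1 : ℕ).testBit t = false ∧
        (p.1.2 : ℕ).testBit t = true := fun p => exists_bit p.2 p.1.2.2
    choose c hc0 hc1 using h
    refine ⟨SimpleGraph.Coloring.mk c fun {p q} hpq he => ?_⟩
    rcases hpq with h | h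
    · have h1 := hc1 p
      have h2 := hc0 q
      rw [h, he] at h1
      rw [h1] at h2
      exact absurd h2 (by decide)
    · have h1 := hc1 q
      have h2 := hc0 p
      rw [h, ← he] at h1
      rw [h1] at h2
      exact absurd h2 (by decide)
  · obtain ⟨c⟩ := colorable_chi (shift k)
    set m := chi (shift k) with hm
    let A : Fin (2 ^ (k + 1)) → Finset (Fin m) := fun i =>
      univ.filter fun s => ∃ (j : Fin (2 ^ (k + 1))) (h : i < j), c ⟨(i, j), h⟩ = s
    have hlt : ∀ i j, i < j → A i ≠ A j := by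
      intro i j hij he
      have h1 : c ⟨(i, j), hij⟩ ∈ A i := by
        simp only [A, mem_filter, mem_univ, true_and]
        exact ⟨j, hij, rfl⟩
      rw [he] at h1
      simp only [A, mem_filter, mem_univ, true_and] at h1
      obtain ⟨l, hl, hc⟩ := h1
      exact c.valid (v := (⟨(j, l), hl⟩ : (shift k).V)) (w := ⟨(i, j), hij⟩) (Or.inr rfl) hc
    have hinj : Function.Injective A := by
      intro i j h
      rcases lt_trichotomy i j with h1 | h1 | h1
      · exact absurd h (hlt i j h1)
      · exact h1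
      · exact absurd h.symm (hlt j i h1)
    have h1 := Fintype.card_le_of_injective A hinj
    rw [Fintype.card_fin, Fintype.card_finset, Fintype.card_fin] at h1
    exact (Nat.pow_le_pow_iff_right (by norm_num)).1 h1

theorem order_shift (k : ℕ) : order (shift k) ≤ 4 ^ (k + 1) := by
  have h1 : order (shift k) ≤ Fintype.card (Fin (2 ^ (k + 1)) × Fin (2 ^ (k + 1))) :=
    Fintype.card_le_of_injective (fun p : (shift k).V => p.1) Subtype.val_injective
  rw [Fintype.card_prod, Fintype.card_fin, ← mul_pow] at h1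
  exact h1

/-- the colours of a vertex of the shift graph: the sets of numbers which contain the first and
not the second coordinate -/
def cols (k : ℕ) (p : (shift k).V) : Finset (Fin (2 ^ (k + 1)) → Bool) :=
  Fintype.piFinset fun l => if l = p.1.1 then {true} else if l = p.1.2 then {false} else univ

theorem mem_cols {k : ℕ} {p : (shift k).V} {g : Fin (2 ^ (k + 1)) → Bool} :
    g ∈ cols k p ↔ g p.1.1 = true ∧ g p.1.2 = false := by
  unfold cols
  rw [Fintype.mem_piFinset]
  constructor
  · intro h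
    have h1 := h p.1.1
    have h2 := h p.1.2
    rw [if_pos rfl, mem_singleton] at h1
    rw [if_neg (ne_of_gt p.2), if_pos rfl, mem_singleton] at h2
    exact ⟨h1, h2⟩
  · rintro ⟨h1, h2⟩ l
    split_ifs with h3 h4
    · rw [mem_singleton, h3, h1]
    · rw [mem_singleton, h4, h2]
    · exact mem_univ _

theorem card_cols (k : ℕ) (p : (shift k).V) : (cols k p).card = 2 ^ (2 ^ (k + 1) - 2) := by
  classical
  unfold cols
  rw [Fintype.card_piFinset]
  have h1 : ∀ l : Fin (2 ^ (k + 1)),
      (if l = p.1.1 then ({true} : Finset Bool) else if l = p.1.2 then {false} else univ).card =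
        if l ∈ ({p.1.1, p.1.2} : Finset (Fin (2 ^ (k + 1)))) then 1 else 2 := by
    intro l
    by_cases h2 : l = p.1.1
    · simp [h2]
    · by_cases h3 : l = p.1.2
      · rw [if_neg h2, if_pos h3, if_pos (by simp [h3])]
        rfl
      · rw [if_neg h2, if_neg h3, if_neg (by simp [h2, h3])]
        rfl
  rw [Finset.prod_congr rfl fun l _ => h1 l, Finset.prod_ite, Finset.prod_const_one, one_mul,
    Finset.prod_const]
  congr 1
  have h2 : (univ.filter fun l : Fin (2 ^ (k + 1)) =>
      ¬ l ∈ ({p.1.1, p.1.2} : Finset (Fin (2 ^ (k + 1))))) =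
      ({p.1.1, p.1.2} : Finset (Fin (2 ^ (k + 1))))ᶜ := by
    ext l
    simp
  rw [h2, Finset.card_compl, Fintype.card_fin, Finset.card_pair p.2.ne]

theorem disjoint_cols {k : ℕ} {p q : (shift k).V} (h : (shift k).graph.Adj p q) :
    Disjoint (cols k p) (cols k q) := by
  rw [Finset.disjoint_left]
  intro g hp hq
  rw [mem_cols] at hp hq
  rcases h with h | h
  · rw [h, hq.1] at hp
    exact absurd hp.2 (by decide)
  · rw [h, hp.1] at hq
    exact absurd hq.2 (by decide)

theorem two_pow_eq (k : ℕ) : 2 ^ 2 ^ (k + 1) = 4 * 2 ^ (2 ^ (k + 1) - 2) := by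
  have h1 : 2 ≤ 2 ^ (k + 1) := by
    rw [pow_succ]
    have := Nat.one_le_two_pow (n := k)
    omega
  conv_lhs => rw [← Nat.sub_add_cancel h1, pow_add]
  ring

theorem chif_shift (k : ℕ) : chif (shift k) ≤ 4 := by
  have h := chif_le (G := shift k) (b := 2 ^ (2 ^ (k + 1) - 2)) (by positivity) (cols k)
    (card_cols k) fun u v => disjoint_cols
  refine h.trans ?_
  have h1 : Fintype.card (Fin (2 ^ (k + 1)) → Bool) = 4 * 2 ^ (2 ^ (k + 1) - 2) := by
    rw [Fintype.card_pi, Finset.prod_const, Fintype.card_bool, Finset.card_univ, Fintype.card_fin,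
      two_pow_eq]
  rw [h1]
  push_cast
  rw [mul_div_assoc, div_self (by positivity), mul_one]

/-! ### Products of shift graphs -/

/-! ### Copies of a tuple -/

/-- The tuples `x` and `y` have the same pattern, equal entries of `x` and `y` come from equal
entries of `x`, and corresponding entries are not adjacent. -/
structure Fold {V : Type} (G : SimpleGraph V) {a : ℕ} (x y : Fin a → V) : Prop where
  eq_iff : ∀ s t, x s = x t ↔ y s = y t
  adj_iff : ∀ s t, G.Adj (x s) (x t) ↔ G.Adj (y s) (y t)
  eq_cross : ∀ s t, x s = y t → x s = x t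
  not_adj : ∀ s, ¬ G.Adj (x s) (y s)

theorem Fold.symm {V : Type} {G : SimpleGraph V} {a : ℕ} {x y : Fin a → V} (h : Fold G x y) :
    Fold G y x where
  eq_iff s t := (h.eq_iff s t).symm
  adj_iff s t := (h.adj_iff s t).symm
  eq_cross s t hst := (h.eq_iff s t).1 (h.eq_cross t s hst.symm).symm
  not_adj s hs := h.not_adj s hs.symm

theorem rel_congr {G H : FGraph} {x y : G.V} {x' y' : H.V} (h1 : x = y ↔ x' = y')
    (h2 : G.graph.Adj x y ↔ H.graph.Adj x' y') : rel G x y = rel H x' y' := by
  unfold rel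
  by_cases h : x = y
  · rw [if_pos h, if_pos (h1.1 h)]
  · rw [if_neg h, if_neg (fun h' => h (h1.2 h'))]
    by_cases h3 : G.graph.Adj x y
    · rw [if_pos h3, if_pos (h2.1 h3)]
    · rw [if_neg h3, if_neg (fun h' => h3 (h2.2 h'))]

section copies

variable {V : Type} (G : SimpleGraph V) {a m : ℕ} (x y : Fin a → V)

open Classical in
/-- the entry `s` of the copy `p` -/
noncomputable def cp (p : Fin m) (s : Fin a) : Option (Fin m) × V :=
  if x s = y s then (none, x s) else (some p, x s)

/-- the relation between the entry `s` of the copy `p` and the entry `t` of the copy `q` -/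
def Lk (p q : Fin m) (s t : Fin a) : Prop :=
  (p < q ∧ G.Adj (x s) (y t)) ∨ (q < p ∧ G.Adj (y s) (x t)) ∨ (p = q ∧ G.Adj (x s) (x t))

variable {G x y}

theorem Lk.symm {p q : Fin m} {s t : Fin a} (h : Lk G x y p q s t) : Lk G x y q p t s := by
  rcases h with ⟨h1, h2⟩ | ⟨h1, h2⟩ | ⟨h1, h2⟩
  · exact Or.inr (Or.inl ⟨h1, h2.symm⟩)
  · exact Or.inl ⟨h1, h2.symm⟩
  · exact Or.inr (Or.inr ⟨h1.symm, h2.symm⟩)

theorem Lk.ne (hF : Fold G x y) {p q : Fin m} {s t : Fin a} (h : Lk G x y p q s t) :
    x s ≠ x t := by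
  intro he
  have he' := (hF.eq_iff s t).1 he
  rcases h with ⟨h1, h2⟩ | ⟨h1, h2⟩ | ⟨h1, h2⟩
  · rw [← he'] at h2
    exact hF.not_adj s h2
  · rw [← he] at h2
    exact hF.not_adj s h2.symm
  · exact h2.ne he

theorem cp_snd (p : Fin m) (s : Fin a) : (cp x y p s).2 = x s := by
  unfold cp
  split_ifs <;> rfl

theorem cp_eq {p q : Fin m} {s t : Fin a} (h : cp x y p s = cp x y q t) :
    x s = x t ∧ (x s = y s ∨ p = q) := by
  have h1 : x s = x t := by
    have h2 := congrArg Prod.snd h
    rw [cp_snd, cp_snd] at h2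
    exact h2
  refine ⟨h1, ?_⟩
  by_cases hs : x s = y s
  · exact Or.inl hs
  · right
    unfold cp at h
    rw [if_neg hs] at h
    split_ifs at h with ht
    · exact absurd (Prod.ext_iff.1 h).1 (by simp)
    · exact Option.some_injective _ (Prod.ext_iff.1 h).1

end copies

/-- the graph of the copies -/
noncomputable def copies (G : FGraph) {a : ℕ} (m : ℕ) (x y : Fin a → G.V)
    (hF : Fold G.graph x y) : FGraph where
  V := Option (Fin m) × G.V
  graph :=
    { Adj := fun u v => ∃ (p q : Fin m) (s t : Fin a), u = cp x y p s ∧ v = cp x y q t ∧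
        Lk G.graph x y p q s t
      symm := ⟨fun u v ⟨p, q, s, t, h1, h2, h3⟩ => ⟨q, p, t, s, h2, h1, h3.symm⟩⟩
      loopless := ⟨fun u ⟨p, q, s, t, h1, h2, h3⟩ => h3.ne hF (cp_eq (h1.symm.trans h2)).1⟩ }

theorem chi_copies (G : FGraph) {a : ℕ} (m : ℕ) (x y : Fin a → G.V) (hF : Fold G.graph x y) :
    chi (copies G m x y hF) ≤ a + 1 := by
  classical
  refine chi_le ⟨SimpleGraph.Coloring.mk (fun u => if h : ∃ s, x s = u.2 then h.choose.castSucc
    else Fin.last a) ?_⟩
  rintro u v ⟨p, q, s, t, rfl, rfl, h⟩ he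
  have hs : ∃ s', x s' = (cp x y p s).2 := ⟨s, (cp_snd p s).symm⟩
  have ht : ∃ t', x t' = (cp x y q t).2 := ⟨t, (cp_snd q t).symm⟩
  rw [dif_pos hs, dif_pos ht] at he
  have h1 := Fin.castSucc_injective a he
  have h2 := hs.choose_spec
  have h3 := ht.choose_spec
  rw [← h1, h2, cp_snd, cp_snd] at h3
  exact h.ne hF h3

theorem copies_adj_same {G : FGraph} {a m : ℕ} {x y : Fin a → G.V} (hF : Fold G.graph x y)
    (p : Fin m) (s t : Fin a) :
    (copies G m x y hF).graph.Adj (cp x y p s) (cp x y p t) ↔ G.graph.Adj (x s) (x t) := by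
  constructor
  · rintro ⟨p', q', s', t', h1, h2, h3⟩
    obtain ⟨e1, c1⟩ := cp_eq h1
    obtain ⟨e2, c2⟩ := cp_eq h2
    rcases h3 with ⟨h4, h5⟩ | ⟨h4, h5⟩ | ⟨h4, h5⟩
    · rw [← e1, ← (hF.eq_iff t t').1 e2] at h5
      rcases c2 with c2 | c2
      · rw [c2]
        exact h5
      · rcases c1 with c1 | c1
        · rw [c1] at h5
          exact (hF.adj_iff s t).2 h5
        · rw [← c1, ← c2] at h4
          exact absurd h4 (lt_irrefl _)
    · rw [← e2, ← (hF.eq_iff s s').1 e1] at h5
      rcases c1 with c1 | c1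
      · rw [c1]
        exact h5
      · rcases c2 with c2 | c2
        · rw [c2] at h5
          exact (hF.adj_iff s t).2 h5
        · rw [← c1, ← c2] at h4
          exact absurd h4 (lt_irrefl _)
    · rw [e1, e2]
      exact h5
  · intro h
    exact ⟨p, p, s, t, rfl, rfl, Or.inr (Or.inr ⟨rfl, h⟩)⟩

theorem copies_adj_lt {G : FGraph} {a m : ℕ} {x y : Fin a → G.V} (hF : Fold G.graph x y)
    {p q : Fin m} (hpq : p < q) (s t : Fin a) :
    (copies G m x y hF).graph.Adj (cp x y p s) (cp x y q t) ↔ G.graph.Adj (x s) (y t) := by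
  constructor
  · rintro ⟨p', q', s', t', h1, h2, h3⟩
    obtain ⟨e1, c1⟩ := cp_eq h1
    obtain ⟨e2, c2⟩ := cp_eq h2
    have key : G.graph.Adj (x s) (x t) → (x s = y s ∨ x t = y t) → G.graph.Adj (x s) (y t) := by
      rintro h4 (h5 | h5)
      · rw [h5]
        exact (hF.adj_iff s t).1 h4
      · rw [← h5]
        exact h4
    rcases h3 with ⟨h4, h5⟩ | ⟨h4, h5⟩ | ⟨h4, h5⟩
    · rw [e1, (hF.eq_iff t t').1 e2]
      exact h5
    · rw [← e2, ← (hF.eq_iff s s').1 e1] at h5
      rcases c1 with c1 | c1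
      · rw [← c1] at h5
        exact key h5 (Or.inl c1)
      · rcases c2 with c2 | c2
        · rw [c2] at h5
          exact key ((hF.adj_iff s t).2 h5) (Or.inr c2)
        · rw [← c1, ← c2] at h4
          exact absurd h4 (not_lt_of_gt hpq)
    · rw [← e1, ← e2] at h5
      rcases c1 with c1 | c1
      · exact key h5 (Or.inl c1)
      · rcases c2 with c2 | c2
        · exact key h5 (Or.inr c2)
        · rw [← c1, ← c2] at h4
          exact absurd h4 hpq.ne
  · intro h
    exact ⟨p, q, s, t, rfl, rfl, Or.inl ⟨hpq, h⟩⟩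

theorem cp_eq_same {V : Type} {G : SimpleGraph V} {a m : ℕ} {x y : Fin a → V} (hF : Fold G x y)
    (p : Fin m) (s t : Fin a) : cp x y p s = cp x y p t ↔ x s = x t := by
  constructor
  · exact fun h => (cp_eq h).1
  · intro h
    have h' := (hF.eq_iff s t).1 h
    unfold cp
    rw [h, h']

theorem cp_eq_lt {V : Type} {G : SimpleGraph V} {a m : ℕ} {x y : Fin a → V} (hF : Fold G x y)
    {p q : Fin m} (hpq : p ≠ q) (s t : Fin a) : cp x y p s = cp x y q t ↔ x s = y t := by
  constructor
  · intro h
    obtain ⟨h1, h2⟩ := cp_eq h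
    rcases h2 with h2 | h2
    · rw [h2]
      exact (hF.eq_iff s t).1 h1
    · exact absurd h2 hpq
  · intro h
    have h1 := hF.eq_cross s t h
    have h2 := (hF.eq_iff s t).1 h1
    have h3 : x s = y s := by rw [h, h2]
    have h4 : x t = y t := by rw [← h1, h]
    unfold cp
    rw [if_pos h3, if_pos h4, h1]

theorem tp_copies {G : FGraph} {a m : ℕ} {x y : Fin a → G.V} (hF : Fold G.graph x y)
    {p q : Fin m} (hpq : p < q) :
    tp (copies G m x y hF) (Sum.elim (cp x y p) (cp x y q)) = tp G (Sum.elim x y) := by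
  funext s t
  rcases s with s | s <;> rcases t with t | t
  · exact rel_congr (cp_eq_same hF p s t) (copies_adj_same hF p s t)
  · exact rel_congr (cp_eq_lt hF hpq.ne s t) (copies_adj_lt hF hpq s t)
  · show rel (copies G m x y hF) (cp x y q s) (cp x y p t) = rel G (y s) (x t)
    have h1 : rel (copies G m x y hF) (cp x y p t) (cp x y q s) = rel G (x t) (y s) :=
      rel_congr (cp_eq_lt hF hpq.ne t s) (copies_adj_lt hF hpq t s)
    exact (rel_comm _ _ _).trans (h1.trans (rel_comm _ _ _))
  · exact rel_congr ((cp_eq_same hF q s t).trans (hF.eq_iff s t))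
      ((copies_adj_same hF q s t).trans (hF.adj_iff s t))

/-! ### Classes of tuples -/

section classes

variable {V : Type} {a : ℕ}

open Classical in
/-- a label for every entry of the tuple -/
noncomputable def lab (x : Fin a → V) (v : V) : Option (Fin a) :=
  if h : ∃ s, x s = v then some h.choose else none

theorem lab_inj (x : Fin a → V) {s t : Fin a} (h : lab x (x s) = lab x (x t)) : x s = x t := by
  unfold lab at h
  rw [dif_pos ⟨s, rfl⟩, dif_pos ⟨t, rfl⟩] at h
  have h1 := Option.some_injective _ h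
  have h2 := (⟨s, rfl⟩ : ∃ s', x s' = x s).choose_spec
  have h3 := (⟨t, rfl⟩ : ∃ s', x s' = x t).choose_spec
  rw [← h2, h1, h3]

/-- the colours for tuples of length `a` of vertices in `V`, made from the colours in `C` -/
abbrev TC (V C : Type) (a : ℕ) : Type :=
  (Fin a → C) × (V → Option (Fin a)) × (Fin a → Option (Fin a)) × (Fin a → Fin a → Bool)

open Classical in
/-- the colours of a tuple -/
noncomputable def tcols [Fintype V] (G : SimpleGraph V) {C : Type} (f : V → Finset C)
    (x : Fin a → V) : Finset (TC V C a) :=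
  (Fintype.piFinset fun s => f (x s)) ×ˢ
    (Fintype.piFinset fun v => if ∃ s, x s = v then {lab x v} else univ) ×ˢ
      {fun s => lab x (x s)} ×ˢ {fun s t => decide (G.Adj (x s) (x t))}

theorem fold_of_mem [Fintype V] (G : SimpleGraph V) {C : Type} {f : V → Finset C}
    (hf : ∀ u v, G.Adj u v → Disjoint (f u) (f v)) {x y : Fin a → V} {g : TC V C a}
    (hx : g ∈ tcols G f x) (hy : g ∈ tcols G f y) : Fold G x y := by
  classical
  obtain ⟨g1, g2, g3, g4⟩ := g
  unfold tcols at hx hy
  simp only [mem_product, Fintype.mem_piFinset, mem_singleton] at hx hy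
  obtain ⟨x1, x2, x3, x4⟩ := hx
  obtain ⟨y1, y2, y3, y4⟩ := hy
  have X2 : ∀ s, g2 (x s) = lab x (x s) := by
    intro s
    have h1 := x2 (x s)
    rw [if_pos ⟨s, rfl⟩, mem_singleton] at h1
    exact h1
  have Y2 : ∀ s, g2 (y s) = lab y (y s) := by
    intro s
    have h1 := y2 (y s)
    rw [if_pos ⟨s, rfl⟩, mem_singleton] at h1
    exact h1
  have XY : ∀ s, lab x (x s) = lab y (y s) := fun s => congrFun (x3.symm.trans y3) s
  refine ⟨fun s t => ⟨fun h => lab_inj y ?_, fun h => lab_inj x ?_⟩, fun s t => ?_,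
    fun s t h => lab_inj x ?_, fun s h => ?_⟩
  · rw [← XY, ← XY, h]
  · rw [XY, XY, h]
  · have h1 := congrFun (congrFun (x4.symm.trans y4) s) t
    simp only [decide_eq_decide] at h1
    exact h1
  · rw [← X2, h, Y2, ← XY]
  · exact Finset.disjoint_left.1 (hf _ _ h) (x1 s) (y1 s)

/-- the constant for tuples of length `a` -/
def cst (a : ℕ) : ℕ := (a + 1) ^ a * (a + 1) ^ a * (2 ^ a) ^ a

open Classical in
theorem card_tcols [Fintype V] (G : SimpleGraph V) {C : Type} [Fintype C] {f : V → Finset C}
    {b : ℕ} (hb : ∀ v, (f v).card = b) (x : Fin a → V) :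
    Fintype.card (TC V C a) * b ^ a ≤ cst a * Fintype.card C ^ a * (tcols G f x).card := by
  classical
  have hO : Fintype.card (Option (Fin a)) = a + 1 := by
    rw [Fintype.card_option, Fintype.card_fin]
  have h1 : (tcols G f x).card =
      b ^ a * (a + 1) ^ (univ.filter fun v => ¬ ∃ s, x s = v).card := by
    unfold tcols
    rw [card_product, card_product, card_product, card_singleton, card_singleton, mul_one, mul_one,
      Fintype.card_piFinset, Fintype.card_piFinset]
    have h2 : ∀ v : V, (if ∃ s, x s = v then {lab x v}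
        else (univ : Finset (Option (Fin a)))).card = if ∃ s, x s = v then 1 else a + 1 := by
      intro v
      split_ifs
      · rfl
      · rw [card_univ, hO]
    rw [Finset.prod_congr rfl fun v _ => h2 v, Finset.prod_ite, Finset.prod_const_one, one_mul,
      Finset.prod_const, Finset.prod_congr rfl fun s _ => hb (x s), Finset.prod_const, card_univ,
      Fintype.card_fin]
  have h2 : (univ.filter fun v => ∃ s, x s = v).card ≤ a := by
    have h3 : (univ.filter fun v => ∃ s, x s = v) ⊆ univ.image x := by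
      intro v hv
      obtain ⟨s, hs⟩ := (mem_filter.1 hv).2
      exact mem_image.2 ⟨s, mem_univ _, hs⟩
    refine (card_le_card h3).trans (card_image_le.trans ?_)
    rw [card_univ, Fintype.card_fin]
  have h3 : (univ.filter fun v : V => ∃ s, x s = v).card +
      (univ.filter fun v => ¬ ∃ s, x s = v).card = Fintype.card V := by
    rw [Finset.card_filter_add_card_filter_not, card_univ]
  have h4 : (a + 1) ^ Fintype.card V ≤ (a + 1) ^ a *
      (a + 1) ^ (univ.filter fun v => ¬ ∃ s, x s = v).card := by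
    rw [← pow_add]
    exact Nat.pow_le_pow_right (by omega) (by omega)
  have h5 : Fintype.card (TC V C a) =
      Fintype.card C ^ a * ((a + 1) ^ Fintype.card V * ((a + 1) ^ a * (2 ^ a) ^ a)) := by
    simp only [TC, Fintype.card_prod, Fintype.card_fun, Fintype.card_fin, Fintype.card_bool, hO]
  rw [h5, h1, cst]
  calc Fintype.card C ^ a * ((a + 1) ^ Fintype.card V * ((a + 1) ^ a * (2 ^ a) ^ a)) * b ^ a
      ≤ Fintype.card C ^ a * (((a + 1) ^ a *
        (a + 1) ^ (univ.filter fun v => ¬ ∃ s, x s = v).card) * ((a + 1) ^ a * (2 ^ a) ^ a)) *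
        b ^ a := by gcongr
    _ = _ := by ring

end classes

theorem chif_le_of_ratio {G : FGraph} {C : Type} [Fintype C] [Nonempty C] (K : ℝ)
    (f : G.V → Finset C) (h : ∀ v, (Fintype.card C : ℝ) ≤ K * (f v).card)
    (hd : ∀ u v, G.graph.Adj u v → Disjoint (f u) (f v)) : chif G ≤ K := by
  classical
  obtain ⟨v0, -, hv0⟩ := Finset.exists_min_image (univ : Finset G.V) (fun v => (f v).card)
    univ_nonempty
  set b := (f v0).card with hb
  have hC : 0 < Fintype.card C := Fintype.card_pos
  have hb0 : 0 < b := by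
    by_contra hcon
    have h1 := h v0
    rw [← hb] at h1
    have h2 : b = 0 := by omega
    rw [h2, Nat.cast_zero, mul_zero] at h1
    have : (0 : ℝ) < Fintype.card C := by exact_mod_cast hC
    linarith
  have hsub : ∀ v, ∃ S ⊆ f v, S.card = b := fun v =>
    Finset.exists_subset_card_eq (hv0 v (mem_univ v))
  choose S hS hSc using hsub
  refine (chif_le hb0 S hSc fun u v huv => ?_).trans ?_
  · exact Finset.disjoint_of_subset_left (hS u)
      (Finset.disjoint_of_subset_right (hS v) (hd u v huv))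
  · rw [div_le_iff₀ (by exact_mod_cast hb0)]
    exact h v0

/-- The rule `R` does not hold for pairs of tuples as in `Fold`. -/
def NoFold {r a b : ℕ} (R : Fin (r + 1) → Fin (r + 1) → Tp a → Tp b → Prop) : Prop :=
  ∀ (G H : FGraph) (i : Fin (r + 1)) (x y : Fin a → G.V) (x' y' : Fin b → H.V),
    Fold G.graph x y → Fold H.graph x' y' → (i, x, x') ≠ (i, y, y') →
    ¬ R i i (tp G (Sum.elim x y)) (tp H (Sum.elim x' y'))

/-- The fractional chromatic number of local products. -/
theorem chif_of_noFold {r a b : ℕ} {R : Fin (r + 1) → Fin (r + 1) → Tp a → Tp b → Prop}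
    (hR : NoFold R) (G H : FGraph) :
    chif (locProd R G H) ≤ ((r + 1) * (cst a * cst b) : ℕ) * (chif G ^ a * chif H ^ b) := by
  classical
  set K : ℝ := (((r + 1) * (cst a * cst b) : ℕ) : ℝ) with hK
  have hK0 : 0 ≤ K := Nat.cast_nonneg _
  have key : ∀ u w : ℝ, chif G < u → chif H < w → chif (locProd R G H) ≤ K * (u ^ a * w ^ b) := by
    intro u w hu hw
    obtain ⟨α, β, hβ, hαβ, f, hf, hfd⟩ := exists_frac G hu
    obtain ⟨α', β', hβ', hαβ', f', hf', hfd'⟩ := exists_frac H hw
    have hβR : (0 : ℝ) < β := by exact_mod_cast hβ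
    have hβR' : (0 : ℝ) < β' := by exact_mod_cast hβ'
    obtain ⟨v0⟩ := G.ne
    obtain ⟨v0'⟩ := H.ne
    have hα : 0 < α := by
      have h1 := Finset.card_le_univ (f v0)
      rw [hf, Fintype.card_fin] at h1
      omega
    have hα' : 0 < α' := by
      have h1 := Finset.card_le_univ (f' v0')
      rw [hf', Fintype.card_fin] at h1
      omega
    have : Nonempty (Fin α) := ⟨⟨0, hα⟩⟩
    have : Nonempty (Fin α') := ⟨⟨0, hα'⟩⟩
    have hu0 : 0 ≤ u := (chif_nonneg G).trans hu.le
    have hw0 : 0 ≤ w := (chif_nonneg H).trans hw.le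
    have h1 : chif (locProd R G H) ≤ K * (((α : ℝ) / β) ^ a * ((α' : ℝ) / β') ^ b) := by
      refine chif_le_of_ratio (C := Fin (r + 1) × TC G.V (Fin α) a × TC H.V (Fin α') b) _
        (fun u => {u.1} ×ˢ (tcols G.graph f u.2.1 ×ˢ tcols H.graph f' u.2.2)) (fun u => ?_) ?_
      · have h1 := card_tcols G.graph hf u.2.1
        have h2 := card_tcols H.graph hf' u.2.2
        rw [Fintype.card_fin] at h1 h2
        have h1R : (Fintype.card (TC G.V (Fin α) a) : ℝ) * (β : ℝ) ^ a ≤
          cst a * (α : ℝ) ^ a * (tcols G.graph f u.2.1).card := by exact_mod_cast h1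
        have h2R : (Fintype.card (TC H.V (Fin α') b) : ℝ) * (β' : ℝ) ^ b ≤
          cst b * (α' : ℝ) ^ b * (tcols H.graph f' u.2.2).card := by exact_mod_cast h2
        rw [Fintype.card_prod, Fintype.card_prod (α := TC G.V (Fin α) a), card_product,
          card_product, card_singleton, Fintype.card_fin, one_mul]
        have h3 : (Fintype.card (TC G.V (Fin α) a) : ℝ) ≤
            cst a * ((α : ℝ) / β) ^ a * (tcols G.graph f u.2.1).card := by
          rw [div_pow, mul_div_assoc', div_mul_eq_mul_div, le_div_iff₀ (by positivity)]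
          exact h1R
        have h4 : (Fintype.card (TC H.V (Fin α') b) : ℝ) ≤
            cst b * ((α' : ℝ) / β') ^ b * (tcols H.graph f' u.2.2).card := by
          rw [div_pow, mul_div_assoc', div_mul_eq_mul_div, le_div_iff₀ (by positivity)]
          exact h2R
        rw [hK]
        push_cast
        calc ((r : ℝ) + 1) * ((Fintype.card (TC G.V (Fin α) a) : ℝ) *
              (Fintype.card (TC H.V (Fin α') b) : ℝ))
            ≤ ((r : ℝ) + 1) * ((cst a * ((α : ℝ) / β) ^ a * (tcols G.graph f u.2.1).card) *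
              (cst b * ((α' : ℝ) / β') ^ b * (tcols H.graph f' u.2.2).card)) := by gcongr
          _ = _ := by ring
      · rintro ⟨i, x, x'⟩ ⟨j, y, y'⟩ ⟨hne, huv⟩
        rw [Finset.disjoint_left]
        rintro ⟨c, g, g'⟩ h1 h2
        simp only [mem_product, mem_singleton] at h1 h2
        obtain ⟨rfl, h3, h4⟩ := h1
        obtain ⟨rfl, h5, h6⟩ := h2
        have hF := fold_of_mem G.graph hfd h3 h5
        have hF' := fold_of_mem H.graph hfd' h4 h6
        rcases huv with huv | huv
        · exact hR G H c x y x' y' hF hF' hne huv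
        · exact hR G H c y x y' x' hF.symm hF'.symm hne.symm huv
    refine h1.trans (mul_le_mul_of_nonneg_left ?_ hK0)
    gcongr
  have hlim : Filter.Tendsto (fun ε : ℝ => K * ((chif G + ε) ^ a * (chif H + ε) ^ b))
      (nhdsWithin 0 (Set.Ioi 0)) (nhds (K * ((chif G + 0) ^ a * (chif H + 0) ^ b))) := by
    refine Filter.Tendsto.mono_left (Continuous.tendsto ?_ 0) nhdsWithin_le_nhds
    fun_prop
  rw [add_zero, add_zero] at hlim
  refine ge_of_tendsto hlim ?_
  filter_upwards [self_mem_nhdsWithin] with ε hε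
  have hε' : (0 : ℝ) < ε := hε
  exact key _ _ (by linarith) (by linarith)

/-! ### Rules about two graphs -/

/-- every pattern of adjacency to at most `m` vertices is realised by another vertex -/
def Sat (m : ℕ) (G : FGraph) : Prop :=
  ∀ (S : Finset G.V) (T : G.V → Prop), S.card ≤ m → ∃ v, v ∉ S ∧ ∀ u ∈ S, G.graph.Adj v u ↔ T u

theorem rel_eq_iff (G : FGraph) (x y : G.V) : rel G x y = Rel.eq ↔ x = y := by
  unfold rel
  by_cases h : x = y
  · simp [h]
  · rw [if_neg h]
    by_cases h2 : G.graph.Adj x y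
    · rw [if_pos h2]
      simp [h]
    · rw [if_neg h2]
      simp [h]

theorem rel_adj_iff (G : FGraph) (x y : G.V) : rel G x y = Rel.adj ↔ G.graph.Adj x y := by
  unfold rel
  by_cases h : x = y
  · rw [if_pos h]
    simp [h]
  · rw [if_neg h]
    by_cases h2 : G.graph.Adj x y
    · rw [if_pos h2]
      simp [h2]
    · rw [if_neg h2]
      simp [h2]

/-- A rule for a product of dimension `(a, b)` with `r + 1` kinds of vertices. -/
abbrev Rule (r a b : ℕ) : Type 1 :=
  Fin (r + 1) → Fin (r + 1) → ∀ (G : FGraph) (_ : Fin a ⊕ Fin a → G.V) (H : FGraph)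
    (_ : Fin b ⊕ Fin b → H.V), Prop

/-- The product with the rule `Q`. The vertices are the triples `(i, x, x')`, where `i` is the kind,
`x` an `a`-tuple of vertices of `G`, and `x'` a `b`-tuple of vertices of `H`. Different vertices
`(i, x, x')` and `(j, y, y')` are adjacent if the rule `Q i j` holds, in one of the two orders, for
the pairs `(x, y)` and `(x', y')`. -/
def prodOf {r a b : ℕ} (Q : Rule r a b) (G H : FGraph) : FGraph where
  V := Fin (r + 1) × (Fin a → G.V) × (Fin b → H.V)
  graph :=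
    { Adj := fun u v => u ≠ v ∧
        (Q u.1 v.1 G (Sum.elim u.2.1 v.2.1) H (Sum.elim u.2.2 v.2.2) ∨
          Q v.1 u.1 G (Sum.elim v.2.1 u.2.1) H (Sum.elim v.2.2 u.2.2))
      symm := ⟨fun u v h => ⟨h.1.symm, h.2.symm⟩⟩
      loopless := ⟨fun u h => h.1 rfl⟩ }

/-- the rule on types that agrees with `Q` on saturated graphs -/
def redRule {r a b : ℕ} (m : ℕ) (Q : Rule r a b) :
    Fin (r + 1) → Fin (r + 1) → Tp a → Tp b → Prop := fun i j τ τ' =>
  ∃ (G : FGraph) (z : Fin a ⊕ Fin a → G.V) (H : FGraph) (w : Fin b ⊕ Fin b → H.V),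
    Sat m G ∧ Sat m H ∧ tp G z = τ ∧ tp H w = τ' ∧ Q i j G z H w

/-! ### Saturated extensions -/

/-- the vertices of the multipartite graphs -/
abbrev UU (m M : ℕ) : Type := Fin (m + 2) × Fin M

/-- the rows of the part `c`, shifted -/
def flp {m M : ℕ} (c : Fin (m + 2)) (ω : UU m M → UU m M → Bool) : UU m M → UU m M → Bool :=
  fun p q => if p.1 = c ∧ q.1 ≠ c then xor (ω p q) (ω q p) else ω p q

theorem flp_flp {m M : ℕ} (c : Fin (m + 2)) (ω : UU m M → UU m M → Bool) :
    flp c (flp c ω) = ω := by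
  funext p q
  unfold flp
  by_cases h : p.1 = c ∧ q.1 ≠ c
  · have h' : ¬ (q.1 = c ∧ p.1 ≠ c) := fun h2 => h.2 h2.1
    rw [if_pos h, if_pos h, if_neg h', Bool.xor_assoc, Bool.xor_self, Bool.xor_false]
  · rw [if_neg h, if_neg h]

open Classical in
/-- the rows without the pattern `T` on `S` -/
noncomputable def badRows {X : Type} [Fintype X] (S : Finset X) (T : X → Bool) :
    Finset (X → Bool) := univ.filter fun g => ¬ ∀ u ∈ S, g u = T u

theorem mem_badRows {X : Type} [Fintype X] {S : Finset X} {T : X → Bool} {g : X → Bool} :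
    g ∈ badRows S T ↔ ¬ ∀ u ∈ S, g u = T u := by
  simp only [badRows, mem_filter, mem_univ, true_and]

theorem card_badRows {X : Type} [Fintype X] {m : ℕ} (S : Finset X) (T : X → Bool)
    (hS : S.card ≤ m) :
    (badRows S T).card * 2 ^ m ≤ 2 ^ Fintype.card X * (2 ^ m - 1) := by
  classical
  have h1 : badRows S T = (Fintype.piFinset fun u => if u ∈ S then {T u} else univ)ᶜ := by
    ext g
    unfold badRows
    rw [mem_filter, mem_compl, Fintype.mem_piFinset]
    constructor
    · rintro ⟨-, h⟩ h2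
      refine h fun u hu => ?_
      have h3 := h2 u
      rw [if_pos hu, mem_singleton] at h3
      exact h3
    · intro h
      refine ⟨mem_univ _, fun h2 => h fun u => ?_⟩
      by_cases hu : u ∈ S
      · rw [if_pos hu, mem_singleton]
        exact h2 u hu
      · rw [if_neg hu]
        exact mem_univ _
  have h2 : (Fintype.piFinset fun u => if u ∈ S then {T u} else (univ : Finset Bool)).card =
      2 ^ (Fintype.card X - S.card) := by
    rw [Fintype.card_piFinset]
    have h3 : ∀ u : X, (if u ∈ S then {T u} else (univ : Finset Bool)).card =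
        if u ∈ S then 1 else 2 := by
      intro u
      split_ifs
      · rfl
      · rfl
    rw [Finset.prod_congr rfl fun u _ => h3 u, Finset.prod_ite, Finset.prod_const_one, one_mul,
      Finset.prod_const]
    congr 1
    have h4 : (univ.filter fun u : X => ¬ u ∈ S) = Sᶜ := by
      ext u
      simp
    rw [h4, Finset.card_compl]
  have h3 : S.card ≤ Fintype.card X := Finset.card_le_univ S
  rw [h1, Finset.card_compl, h2, Fintype.card_fun, Fintype.card_bool]
  have h4 : 2 ^ (Fintype.card X - S.card) ≤ 2 ^ Fintype.card X :=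
    Nat.pow_le_pow_right (by norm_num) (Nat.sub_le _ _)
  have h5 : 2 ^ Fintype.card X ≤ 2 ^ (Fintype.card X - S.card) * 2 ^ m := by
    rw [← pow_add]
    exact Nat.pow_le_pow_right (by norm_num) (by omega)
  rw [Nat.sub_mul, Nat.mul_sub, mul_one]
  omega

/-- the bad event -/
noncomputable def badSet {m M : ℕ} (c : Fin (m + 2)) (S : Finset (UU m M)) (T : UU m M → Bool) :
    Finset (UU m M → UU m M → Bool) :=
  Fintype.piFinset fun p => if p.1 = c then badRows S T else univ

theorem card_badSet {m M : ℕ} (c : Fin (m + 2)) (S : Finset (UU m M)) (T : UU m M → Bool)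
    (hS : S.card ≤ m) :
    (badSet c S T).card * (2 ^ m) ^ M ≤
      (2 ^ m - 1) ^ M * Fintype.card (UU m M → UU m M → Bool) := by
  classical
  set X : ℕ := 2 ^ Fintype.card (UU m M) with hX
  set β : ℕ := (badRows S T).card with hβ
  have h0 : Fintype.card (UU m M → Bool) = X := by
    rw [Fintype.card_fun, Fintype.card_bool]
  have hcard : Fintype.card (UU m M) = (m + 2) * M := by
    rw [Fintype.card_prod, Fintype.card_fin, Fintype.card_fin]
  have h1 : (badSet c S T).card = (β * X ^ (m + 1)) ^ M := by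
    unfold badSet
    rw [Fintype.card_piFinset, Fintype.prod_prod_type]
    have h2 : ∀ (d : Fin (m + 2)) (i : Fin M),
        (if (d, i).1 = c then badRows S T else (univ : Finset (UU m M → Bool))).card =
          if d = c then β else X := by
      intro d i
      show (if d = c then badRows S T else (univ : Finset (UU m M → Bool))).card = _
      split_ifs
      · rfl
      · rw [card_univ, h0]
    rw [Finset.prod_congr rfl fun d _ => Finset.prod_congr rfl fun i _ => h2 d i]
    simp only [Finset.prod_const, card_univ, Fintype.card_fin]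
    rw [Finset.prod_pow]
    congr 1
    rw [← Finset.mul_prod_erase univ _ (mem_univ c), if_pos rfl]
    congr 1
    rw [Finset.prod_congr rfl fun d hd => if_neg (Finset.ne_of_mem_erase hd), Finset.prod_const,
      Finset.card_erase_of_mem (mem_univ c), card_univ, Fintype.card_fin]
    rfl
  have h2 : Fintype.card (UU m M → UU m M → Bool) = (X * X ^ (m + 1)) ^ M := by
    rw [Fintype.card_fun, h0, hcard, ← pow_succ', pow_mul]
  rw [h1, h2, ← mul_pow, ← mul_pow]
  refine Nat.pow_le_pow_left ?_ _
  have h3 := card_badRows S T hS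
  rw [← hX, ← hβ] at h3
  calc β * X ^ (m + 1) * 2 ^ m = (β * 2 ^ m) * X ^ (m + 1) := by ring
    _ ≤ (X * (2 ^ m - 1)) * X ^ (m + 1) := Nat.mul_le_mul_right _ h3
    _ = (2 ^ m - 1) * (X * X ^ (m + 1)) := by ring

theorem exists_size (m : ℕ) : ∃ M0 : ℕ, ∀ M ≥ M0,
    ((m + 2) * (((m + 2) * M) ^ m * 2 ^ m)) * (2 ^ m - 1) ^ M < (2 ^ m) ^ M := by
  have h2 : (0 : ℝ) < 2 ^ m := by positivity
  have h1 : (1 : ℝ) ≤ 2 ^ m := one_le_pow₀ (by norm_num)
  set ρ : ℝ := ((2 : ℝ) ^ m - 1) / 2 ^ m with hρ
  have hρ0 : 0 ≤ ρ := div_nonneg (by linarith) h2.le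
  have hρ1 : ρ < 1 := by
    rw [hρ, div_lt_one h2]
    linarith
  have h3 := tendsto_pow_const_mul_const_pow_of_abs_lt_one m (r := ρ) (by
    rw [abs_of_nonneg hρ0]
    exact hρ1)
  have h4 := h3.const_mul ((m + 2 : ℝ) * ((m + 2 : ℝ) ^ m * 2 ^ m))
  rw [mul_zero] at h4
  obtain ⟨M0, hM0⟩ := Filter.eventually_atTop.1 (h4.eventually (gt_mem_nhds one_pos))
  refine ⟨M0, fun M hM => ?_⟩
  have h5 := hM0 M hM
  have h6 : ((m + 2 : ℝ) * (((m + 2 : ℝ) * M) ^ m * 2 ^ m)) * (2 ^ m - 1) ^ M < (2 ^ m) ^ M := by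
    have h7 : ((m + 2 : ℝ) * (((m + 2 : ℝ) * M) ^ m * 2 ^ m)) * (2 ^ m - 1) ^ M =
        ((m + 2 : ℝ) * ((m + 2 : ℝ) ^ m * 2 ^ m) * ((M : ℝ) ^ m * ρ ^ M)) * (2 ^ m) ^ M := by
      rw [hρ, div_pow, mul_pow]
      field_simp
    rw [h7]
    have h8 : (0 : ℝ) < (2 ^ m) ^ M := by positivity
    nlinarith
  have h7 : ((2 ^ m - 1 : ℕ) : ℝ) = (2 : ℝ) ^ m - 1 := by
    rw [Nat.cast_sub Nat.one_le_two_pow]
    push_cast
    rfl
  rw [← h7] at h6
  exact_mod_cast h6

theorem exists_random (m : ℕ) : ∃ M0 : ℕ, ∀ M ≥ M0, ∃ R : UU m M → UU m M → Prop,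
    (∀ p q, R p q → R q p) ∧ ∀ (c : Fin (m + 2)) (S : Finset (UU m M)) (T : UU m M → Prop),
      S.card ≤ m → (∀ u ∈ S, u.1 ≠ c) → ∃ i : Fin M, ∀ u ∈ S, R (c, i) u ↔ T u := by
  classical
  obtain ⟨M0, hM0⟩ := exists_size m
  refine ⟨max M0 1, fun M hM => ?_⟩
  have h1 := hM0 M (le_trans (le_max_left _ _) hM)
  have hM1 : 1 ≤ M := le_trans (le_max_right _ _) hM
  -- the bad set of a triple
  let S' : (Fin m → UU m M) → Finset (UU m M) := fun τ => univ.image τ
  let T' : (Fin m → UU m M) → (Fin m → Bool) → UU m M → Bool := fun τ b u =>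
    decide (∃ s, τ s = u ∧ b s = true)
  let Bad : Fin (m + 2) × (Fin m → UU m M) × (Fin m → Bool) →
    Finset (UU m M → UU m M → Bool) := fun t => (badSet t.1 (S' t.2.1) (T' t.2.1 t.2.2)).image
      (flp t.1)
  obtain ⟨ω, hω⟩ : ∃ ω : UU m M → UU m M → Bool, ∀ t, ω ∉ Bad t := by
    by_contra hcon
    push Not at hcon
    have h2 : (univ : Finset (UU m M → UU m M → Bool)) ⊆ univ.biUnion Bad := by
      intro ω _
      obtain ⟨t, ht⟩ := hcon ω
      exact mem_biUnion.2 ⟨t, mem_univ _, ht⟩
    have h3 := (Finset.card_le_card h2).trans Finset.card_biUnion_le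
    have h4 : ∀ t, (Bad t).card * (2 ^ m) ^ M ≤
        (2 ^ m - 1) ^ M * Fintype.card (UU m M → UU m M → Bool) := by
      intro t
      refine (Nat.mul_le_mul_right _ card_image_le).trans (card_badSet _ _ _ ?_)
      refine card_image_le.trans ?_
      rw [card_univ, Fintype.card_fin]
    have h5 := Nat.mul_le_mul_right ((2 ^ m) ^ M) h3
    rw [Finset.sum_mul] at h5
    have h6 := h5.trans (Finset.sum_le_card_nsmul _ _ _ fun t _ => h4 t)
    rw [card_univ, card_univ, smul_eq_mul] at h6
    have h7 : Fintype.card (Fin (m + 2) × (Fin m → UU m M) × (Fin m → Bool)) =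
        (m + 2) * (((m + 2) * M) ^ m * 2 ^ m) := by
      simp only [Fintype.card_prod, Fintype.card_fun, Fintype.card_fin, Fintype.card_bool]
    rw [h7] at h6
    have h8 : 0 < Fintype.card (UU m M → UU m M → Bool) := Fintype.card_pos
    have h9 : (m + 2) * (((m + 2) * M) ^ m * 2 ^ m) *
        ((2 ^ m - 1) ^ M * Fintype.card (UU m M → UU m M → Bool)) <
        Fintype.card (UU m M → UU m M → Bool) * (2 ^ m) ^ M := by
      calc _ = ((m + 2) * (((m + 2) * M) ^ m * 2 ^ m) * (2 ^ m - 1) ^ M) *
            Fintype.card (UU m M → UU m M → Bool) := by ring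
        _ < (2 ^ m) ^ M * Fintype.card (UU m M → UU m M → Bool) :=
          Nat.mul_lt_mul_of_pos_right h1 h8
        _ = _ := by ring
    omega
  refine ⟨fun p q => xor (ω p q) (ω q p) = true, fun p q h => ?_, fun c S T hS hc => ?_⟩
  · show xor (ω q p) (ω p q) = true
    rw [Bool.xor_comm]
    exact h
  rcases S.eq_empty_or_nonempty with rfl | ⟨u0, hu0⟩
  · exact ⟨⟨0, hM1⟩, fun u hu => absurd hu (notMem_empty u)⟩
  -- enumerate `S`
  obtain ⟨τ, hτ⟩ : ∃ τ : Fin m → UU m M, univ.image τ = S := by
    let g : Fin m → UU m M := fun s => if h : (s : ℕ) < S.card then S.equivFin.symm ⟨s, h⟩ else u0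
    refine ⟨g, ?_⟩
    ext u
    rw [mem_image]
    constructor
    · rintro ⟨s, -, rfl⟩
      simp only [g]
      split_ifs
      · exact Subtype.coe_prop _
      · exact hu0
    · intro hu
      refine ⟨⟨S.equivFin ⟨u, hu⟩, (S.equivFin ⟨u, hu⟩).2.trans_le hS⟩, mem_univ _, ?_⟩
      simp only [g]
      rw [dif_pos (S.equivFin ⟨u, hu⟩).2]
      simp
  by_contra hcon
  push Not at hcon
  refine hω (c, τ, fun s => decide (T (τ s))) ?_
  simp only [Bad]
  rw [mem_image]
  refine ⟨flp c ω, ?_, flp_flp c ω⟩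
  unfold badSet
  rw [Fintype.mem_piFinset]
  rintro ⟨d, i⟩
  by_cases hd : d = c
  · rw [if_pos hd, mem_badRows]
    intro h2
    obtain ⟨u, hu, hu2⟩ := hcon i
    have h3 := h2 u (by rw [← hτ] at hu; exact hu)
    have h4 : flp c ω (d, i) u = xor (ω (d, i) u) (ω u (d, i)) := by
      unfold flp
      rw [if_pos ⟨hd, hc u hu⟩]
    rw [h4] at h3
    have h5 : T' τ (fun s => decide (T (τ s))) u = true ↔ T u := by
      simp only [T', decide_eq_true_eq]
      constructor
      · rintro ⟨s, rfl, h⟩
        exact h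
      · intro h
        rw [← hτ, mem_image] at hu
        obtain ⟨s, -, rfl⟩ := hu
        exact ⟨s, rfl, h⟩
    have h6 : (xor (ω (d, i) u) (ω u (d, i)) = true) ↔ T u := by
      rw [h3]
      exact h5
    rw [hd] at h6
    rcases hu2 with ⟨h7, h8⟩ | ⟨h7, h8⟩
    · exact h8 (h6.1 h7)
    · exact h7 (h6.2 h8)
  · rw [if_neg hd]
    exact mem_univ _

/-- the graph `G` in the part `0` of a multipartite graph -/
def extG (G : FGraph) {m M : ℕ} (R : UU m M → UU m M → Prop) (hR : ∀ p q, R p q → R q p)
    (e : G.V ↪ Fin M) : FGraph where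
  V := UU m M
  ne := G.ne.map fun v => ((0 : Fin (m + 2)), e v)
  graph :=
    { Adj := fun p q => (p.1 ≠ q.1 ∧ R p q) ∨
        (p.1 = 0 ∧ q.1 = 0 ∧ ∃ v w, e v = p.2 ∧ e w = q.2 ∧ G.graph.Adj v w)
      symm := ⟨fun p q h => h.elim (fun h => Or.inl ⟨h.1.symm, hR _ _ h.2⟩)
        fun ⟨h1, h2, v, w, h3, h4, h5⟩ => Or.inr ⟨h2, h1, w, v, h4, h3, h5.symm⟩⟩
      loopless := ⟨fun p h => h.elim (fun h => h.1 rfl)
        fun ⟨h1, h2, v, w, h3, h4, h5⟩ => h5.ne (e.injective (h3.trans h4.symm))⟩ }

section extG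

variable (G : FGraph) {m M : ℕ} (R : UU m M → UU m M → Prop) (hR : ∀ p q, R p q → R q p)
    (e : G.V ↪ Fin M)

theorem rel_extG (x y : G.V) :
    rel (extG G R hR e) ((0 : Fin (m + 2)), e x) ((0 : Fin (m + 2)), e y) = rel G x y := by
  refine rel_congr ?_ ?_
  · constructor
    · exact fun h => e.injective (Prod.ext_iff.1 h).2
    · rintro rfl
      rfl
  · constructor
    · rintro (⟨h, -⟩ | ⟨-, -, v, w, h1, h2, h3⟩)
      · exact absurd rfl h
      · rw [← e.injective h1, ← e.injective h2]
        exact h3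
    · exact fun h => Or.inr ⟨rfl, rfl, x, y, rfl, rfl, h⟩

theorem chi_extG : chi (extG G R hR e) ≤ chi G + (m + 1) := by
  classical
  obtain ⟨c⟩ := colorable_chi G
  have d : (extG G R hR e).graph.Coloring (Fin (chi G) ⊕ Fin (m + 1)) :=
    SimpleGraph.Coloring.mk (fun p => if h : p.1 = 0 then Sum.inl (c (Function.invFun e p.2))
      else Sum.inr (p.1.pred h)) (by
    rintro ⟨p1, p2⟩ ⟨q1, q2⟩ (⟨h1, -⟩ | ⟨h1, h2, v, w, h3, h4, h5⟩) he
    · simp only at he h1
      by_cases hp : p1 = 0
      · by_cases hq : q1 = 0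
        · exact h1 (hp.trans hq.symm)
        · rw [dif_pos hp, dif_neg hq] at he
          exact absurd he (by simp)
      · by_cases hq : q1 = 0
        · rw [dif_neg hp, dif_pos hq] at he
          exact absurd he (by simp)
        · rw [dif_neg hp, dif_neg hq] at he
          exact h1 (Fin.pred_inj.1 (Sum.inr_injective he))
    · simp only at he h1 h2 h3 h4
      rw [dif_pos h1, dif_pos h2, ← h3, ← h4, Function.leftInverse_invFun e.injective,
        Function.leftInverse_invFun e.injective] at he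
      exact c.valid h5 (Sum.inl_injective he))
  have h := d.colorable
  rw [Fintype.card_sum, Fintype.card_fin, Fintype.card_fin] at h
  exact chi_le h

theorem chif_extG : chif (extG G R hR e) ≤ chif G + (m + 1) := by
  classical
  refine le_of_forall_pos_le_add fun ε hε => ?_
  obtain ⟨α, β, hβ, hαβ, f, hf, hfd⟩ := exists_frac G (r := chif G + ε) (by linarith)
  have h := chif_le (G := extG G R hR e) (C := Fin α ⊕ (Fin (m + 1) × Fin β)) hβ
    (fun p => if h : p.1 = 0 then (f (Function.invFun e p.2)).map Function.Embedding.inl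
      else (({p.1.pred h} : Finset (Fin (m + 1))) ×ˢ (univ : Finset (Fin β))).map
        Function.Embedding.inr) (by
      rintro ⟨p1, p2⟩
      simp only
      split_ifs with h
      · rw [card_map, hf]
      · rw [card_map, card_product, card_singleton, one_mul, card_univ, Fintype.card_fin]) (by
      rintro ⟨p1, p2⟩ ⟨q1, q2⟩ (⟨h1, -⟩ | ⟨h1, h2, v, w, h3, h4, h5⟩)
      · simp only at h1 ⊢
        rw [Finset.disjoint_left]
        intro g hg1 hg2
        by_cases hp : p1 = 0
        · by_cases hq : q1 = 0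
          · exact h1 (hp.trans hq.symm)
          · rw [dif_pos hp, mem_map] at hg1
            rw [dif_neg hq, mem_map] at hg2
            obtain ⟨x, -, rfl⟩ := hg1
            obtain ⟨y, -, h6⟩ := hg2
            exact absurd h6 (by simp)
        · by_cases hq : q1 = 0
          · rw [dif_neg hp, mem_map] at hg1
            rw [dif_pos hq, mem_map] at hg2
            obtain ⟨x, -, rfl⟩ := hg1
            obtain ⟨y, -, h6⟩ := hg2
            exact absurd h6 (by simp)
          · rw [dif_neg hp, mem_map] at hg1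
            rw [dif_neg hq, mem_map] at hg2
            obtain ⟨x, hx, rfl⟩ := hg1
            obtain ⟨y, hy, h6⟩ := hg2
            rw [mem_product, mem_singleton] at hx hy
            have h7 : y = x := Sum.inr_injective h6
            rw [h7] at hy
            exact h1 (Fin.pred_inj.1 (hx.1.symm.trans hy.1))
      · simp only at h1 h2 h3 h4 ⊢
        rw [dif_pos h1, dif_pos h2, ← h3, ← h4, Function.leftInverse_invFun e.injective,
          Function.leftInverse_invFun e.injective, Finset.disjoint_map]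
        exact hfd v w h5)
  have hβR : (0 : ℝ) < β := by exact_mod_cast hβ
  have h2 : (Fintype.card (Fin α ⊕ (Fin (m + 1) × Fin β)) : ℝ) / β = (α : ℝ) / β + (m + 1) := by
    rw [Fintype.card_sum, Fintype.card_prod, Fintype.card_fin, Fintype.card_fin, Fintype.card_fin]
    push_cast
    field_simp
  rw [h2] at h
  linarith

end extG

theorem chi_mono {G H : FGraph} (j : G.V → H.V)
    (h : ∀ x y, G.graph.Adj x y → H.graph.Adj (j x) (j y)) : chi G ≤ chi H := by
  obtain ⟨c⟩ := colorable_chi H
  exact chi_le ⟨SimpleGraph.Coloring.mk (fun x => c (j x)) fun {x y} hxy => c.valid (h x y hxy)⟩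

/-- Every graph has an extension in which every pattern of adjacency to at most `m` vertices is
realised, with chromatic numbers larger by at most `m + 1`. -/
theorem sat_ext (m : ℕ) : ∃ C : ℕ, 0 < C ∧ ∀ G : FGraph, ∃ (G' : FGraph) (j : G.V → G'.V),
    (∀ x y, rel G' (j x) (j y) = rel G x y) ∧ Sat m G' ∧ chi G ≤ chi G' ∧
      chi G' ≤ chi G + (m + 1) ∧ chif G' ≤ chif G + (m + 1) ∧ order G' ≤ C * order G := by
  classical
  obtain ⟨M0, hM0⟩ := exists_random m
  refine ⟨(m + 2) * (M0 + 1), by positivity, fun G => ?_⟩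
  obtain ⟨R, hR, hsat⟩ := hM0 (order G + M0) (Nat.le_add_left _ _)
  let e : G.V ↪ Fin (order G + M0) :=
    (Fintype.equivFin G.V).toEmbedding.trans (Fin.castAddEmb M0)
  have hrel := rel_extG G R hR e
  refine ⟨extG G R hR e, fun v => ((0 : Fin (m + 2)), e v), hrel, ?_,
    chi_mono (H := extG G R hR e) (fun v => ((0 : Fin (m + 2)), e v)) fun x y hxy => ?_,
    chi_extG G R hR e, chif_extG G R hR e, ?_⟩
  · intro S T hS
    obtain ⟨c, hc⟩ : ∃ c : Fin (m + 2), ∀ u ∈ S, u.1 ≠ c := by
      by_contra hcon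
      push Not at hcon
      have h1 : (univ : Finset (Fin (m + 2))) ⊆ S.image fun u : UU m (order G + M0) => u.1 := by
        intro c _
        obtain ⟨u, hu, h⟩ := hcon c
        exact mem_image.2 ⟨u, hu, h⟩
      have h2 := (card_le_card h1).trans card_image_le
      rw [card_univ, Fintype.card_fin] at h2
      have h3 : m + 2 ≤ m := h2.trans hS
      omega
    obtain ⟨i, hi⟩ := hsat c S T hS hc
    refine ⟨(c, i), fun h => hc _ h rfl, fun u hu => ?_⟩
    rw [← hi u hu]
    constructor
    · rintro (⟨-, h⟩ | ⟨h1, h2, -⟩)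
      · exact h
      · exact absurd (h2.trans h1.symm) (hc u hu)
    · exact fun h => Or.inl ⟨fun h2 => hc u hu h2.symm, h⟩
  · exact Or.inr ⟨rfl, rfl, x, y, rfl, rfl, hxy⟩
  · have h1 : order (extG G R hR e) = (m + 2) * (order G + M0) := by
      have h2 : order (extG G R hR e) = Fintype.card (Fin (m + 2) × Fin (order G + M0)) := rfl
      rw [h2, Fintype.card_prod, Fintype.card_fin, Fintype.card_fin]
    have h2 : 0 < order G := Fintype.card_pos
    rw [h1, mul_assoc]
    refine Nat.mul_le_mul_left _ ?_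
    nlinarith

/-! ### The pebble game -/

/-- The positions `u`, `u'` of the pebbles, indexed by `κ`, on the graphs `G`, `G'` have the same
type: the same pebbles are on the board, and all the relations between their vertices agree. The
value `none` is for a pebble which is not on the board. -/
def SameType {κ : Type} (G : FGraph) (u : κ → Option G.V) (G' : FGraph) (u' : κ → Option G'.V) :
    Prop :=
  (∀ s, u s = none ↔ u' s = none) ∧ ∀ s t x y x' y', u s = some x → u t = some y →
    u' s = some x' → u' t = some y' → rel G x y = rel G' x' y'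

open Classical in
/-- The position after the pebble `s` is moved to the vertex `v`. -/
noncomputable def move {κ V : Type} (u : κ → Option V) (s : κ) (v : V) : κ → Option V :=
  Function.update u s (some v)

/-- The duplicator wins the infinite pebble game on the graphs `G`, `G'` with the pebbles `ι ⊕ Fin n`,
where in the initial position the pebbles `ι` are on the tuples `z`, `z'` and the other `n` pebbles
are not on the board: there is a set `W` of pairs of positions of the same type which contains the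
initial position, such that every move of a pebble in one graph can be answered by a move of the
same pebble in the other graph. -/
def PebbleEquiv (n : ℕ) (ι : Type) (G : FGraph) (z : ι → G.V) (G' : FGraph) (z' : ι → G'.V) :
    Prop :=
  ∃ W : (ι ⊕ Fin n → Option G.V) → (ι ⊕ Fin n → Option G'.V) → Prop,
    W (Sum.elim (fun s => some (z s)) fun _ => none) (Sum.elim (fun s => some (z' s)) fun _ => none) ∧
    ∀ u u', W u u' → SameType G u G' u' ∧ ∀ s,
      (∀ v : G.V, ∃ v' : G'.V, W (move u s v) (move u' s v')) ∧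
      ∀ v' : G'.V, ∃ v : G.V, W (move u s v) (move u' s v')

theorem SameType.symm {κ : Type} {G : FGraph} {u : κ → Option G.V} {G' : FGraph}
    {u' : κ → Option G'.V} (h : SameType G u G' u') : SameType G' u' G u :=
  ⟨fun s => (h.1 s).symm, fun s t x y x' y' h1 h2 h3 h4 => (h.2 s t x' y' x y h3 h4 h1 h2).symm⟩

theorem SameType.move {κ : Type} {G : FGraph} {u : κ → Option G.V} {G' : FGraph}
    {u' : κ → Option G'.V} (h : SameType G u G' u') (s : κ) (v : G.V) (v' : G'.V)
    (key : ∀ t y y', t ≠ s → u t = some y → u' t = some y' → rel G v y = rel G' v' y') :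
    SameType G (move u s v) G' (move u' s v') := by
  classical
  unfold GraphProducts.move
  refine ⟨fun t => ?_, fun p q x y x' y' h1 h2 h3 h4 => ?_⟩
  · by_cases ht : t = s
    · subst ht
      simp
    · rw [Function.update_of_ne ht, Function.update_of_ne ht]
      exact h.1 t
  · by_cases hp : p = s
    · by_cases hq : q = s
      · subst hp
        subst hq
        rw [Function.update_self] at h1 h2 h3 h4
        rw [← Option.some_injective _ h1, ← Option.some_injective _ h2,
          ← Option.some_injective _ h3, ← Option.some_injective _ h4]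
        exact rel_congr (by simp) (by simp)
      · subst hp
        rw [Function.update_self] at h1 h3
        rw [Function.update_of_ne hq] at h2 h4
        rw [← Option.some_injective _ h1, ← Option.some_injective _ h3]
        exact key q y y' hq h2 h4
    · by_cases hq : q = s
      · subst hq
        rw [Function.update_self] at h2 h4
        rw [Function.update_of_ne hp] at h1 h3
        rw [← Option.some_injective _ h2, ← Option.some_injective _ h4, rel_comm,
          rel_comm G' x' v']
        exact key p x x' hp h1 h3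
      · rw [Function.update_of_ne hp] at h1 h3
        rw [Function.update_of_ne hq] at h2 h4
        exact h.2 p q x y x' y' h1 h2 h3 h4

theorem exists_move {m : ℕ} {κ : Type} [Fintype κ] (hκ : Fintype.card κ ≤ m) {G G' : FGraph}
    (hG' : Sat m G') {u : κ → Option G.V} {u' : κ → Option G'.V} (h : SameType G u G' u') (s : κ)
    (v : G.V) : ∃ v' : G'.V, SameType G (move u s v) G' (move u' s v') := by
  classical
  by_cases hv : ∃ t, t ≠ s ∧ u t = some v
  · obtain ⟨t, hts, ht⟩ := hv
    have h1 : u' t ≠ none := fun h2 => by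
      rw [(h.1 t).2 h2] at ht
      exact absurd ht (by simp)
    obtain ⟨v', hv'⟩ := Option.ne_none_iff_exists'.1 h1
    exact ⟨v', h.move s v v' fun p y y' _ h2 h3 => h.2 t p v y v' y' ht h2 hv' h3⟩
  · push Not at hv
    let S : Finset G'.V := univ.biUnion fun t => (u' t).toFinset
    have hS : S.card ≤ m := by
      refine card_biUnion_le.trans ?_
      refine (Finset.sum_le_card_nsmul _ _ 1 fun t _ => ?_).trans ?_
      · rcases u' t with _ | y
        · simp
        · simp
      · rw [card_univ, smul_eq_mul, mul_one]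
        exact hκ
    have hmem : ∀ t y', u' t = some y' → y' ∈ S := by
      intro t y' ht
      refine mem_biUnion.2 ⟨t, mem_univ _, ?_⟩
      rw [ht]
      simp
    obtain ⟨v', h1, h2⟩ := hG' S (fun w => ∃ t y, u' t = some w ∧ u t = some y ∧ G.graph.Adj v y) hS
    refine ⟨v', h.move s v v' fun p y y' hp h3 h4 => rel_congr ?_ ?_⟩
    · constructor
      · rintro rfl
        exact absurd h3 (hv p hp)
      · rintro rfl
        exact absurd (hmem p _ h4) h1
    · rw [h2 y' (hmem p y' h4)]
      constructor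
      · exact fun h5 => ⟨p, y, h4, h3, h5⟩
      · rintro ⟨t, y2, h5, h6, h7⟩
        have h8 := h.2 p t y y2 y' y' h3 h6 h4 h5
        have h9 : rel G' y' y' = Rel.eq := (rel_eq_iff G' y' y').2 rfl
        rw [h9, rel_eq_iff] at h8
        rw [h8]
        exact h7

theorem pebble_of_sat {m n : ℕ} {G G' : FGraph} (hG : Sat m G) (hG' : Sat m G') {ι : Type}
    [Fintype ι] (hm : Fintype.card ι + n ≤ m) {z : ι → G.V} {z' : ι → G'.V}
    (h : tp G z = tp G' z') : PebbleEquiv n ι G z G' z' := by
  have hκ : Fintype.card (ι ⊕ Fin n) ≤ m := by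
    rw [Fintype.card_sum, Fintype.card_fin]
    exact hm
  refine ⟨fun u u' => SameType G u G' u', ⟨fun s => ?_, fun s t x y x' y' h1 h2 h3 h4 => ?_⟩,
    fun u u' hu => ⟨hu, fun s => ⟨fun v => exists_move hκ hG' hu s v, fun v' => ?_⟩⟩⟩
  · rcases s with s | s
    · simp
    · simp
  · rcases s with s | s
    · rcases t with t | t
      · simp only [Sum.elim_inl] at h1 h2 h3 h4
        rw [← Option.some_injective _ h1, ← Option.some_injective _ h2,
          ← Option.some_injective _ h3, ← Option.some_injective _ h4]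
        exact congrFun (congrFun h s) t
      · exact absurd h2 (by simp)
    · exact absurd h1 (by simp)
  · obtain ⟨v, hv⟩ := exists_move hκ hG hu.symm s v'
    exact ⟨v, hv.symm⟩

/-- The rule does not distinguish tuples which cannot be distinguished in the pebble game with `n`
additional pebbles. By `invariant_ruleOf` this is so for all rules given by formulas of infinitary
logic with `n` additional variables, in particular for all rules given by first-order formulas. -/
def Invariant (n : ℕ) {r a b : ℕ} (Q : Rule r a b) : Prop :=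
  ∀ (i j : Fin (r + 1)) (G : FGraph) (z : Fin a ⊕ Fin a → G.V) (H : FGraph)
    (w : Fin b ⊕ Fin b → H.V) (G' : FGraph) (z' : Fin a ⊕ Fin a → G'.V) (H' : FGraph)
    (w' : Fin b ⊕ Fin b → H'.V), PebbleEquiv n _ G z G' z' → PebbleEquiv n _ H w H' w' →
    Q i j G z H w → Q i j G' z' H' w'

theorem red_iff {r a b n m : ℕ} {Q : Rule r a b} (hQ : Invariant n Q)
    (ha : (a + a) + n ≤ m) (hb : (b + b) + n ≤ m) {G H : FGraph} (hG : Sat m G) (hH : Sat m H)
    (i j : Fin (r + 1)) (z : Fin a ⊕ Fin a → G.V) (w : Fin b ⊕ Fin b → H.V) :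
    redRule m Q i j (tp G z) (tp H w) ↔ Q i j G z H w := by
  constructor
  · rintro ⟨G', z', H', w', hG', hH', h1, h2, h3⟩
    exact hQ i j G' z' H' w' G z H w
      (pebble_of_sat hG' hG (by simpa using ha) h1)
      (pebble_of_sat hH' hH (by simpa using hb) h2) h3
  · exact fun h => ⟨G, z, H, w, hG, hH, rfl, rfl, h⟩

theorem prodOf_eq {r a b n m : ℕ} {Q : Rule r a b} (hQ : Invariant n Q)
    (ha : (a + a) + n ≤ m) (hb : (b + b) + n ≤ m) {G H : FGraph} (hG : Sat m G) (hH : Sat m H) :
    prodOf Q G H = locProd (redRule m Q) G H := by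
  unfold prodOf locProd
  congr 1
  refine SimpleGraph.ext (funext fun u => funext fun v => propext ?_)
  simp only [red_iff hQ ha hb hG hH]

theorem tp_comp {G G' : FGraph} {j : G.V → G'.V} (hj : ∀ x y, rel G' (j x) (j y) = rel G x y)
    {a : ℕ} (x y : Fin a → G.V) :
    tp G' (Sum.elim (j ∘ x) (j ∘ y)) = tp G (Sum.elim x y) := by
  funext s t
  rcases s with s | s <;> rcases t with t | t <;> exact hj _ _

theorem inj_of_rel {G G' : FGraph} {j : G.V → G'.V}
    (hj : ∀ x y, rel G' (j x) (j y) = rel G x y) {x y : G.V} (h : j x = j y) : x = y := by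
  rw [← rel_eq_iff, ← hj, rel_eq_iff]
  exact h

theorem le_sum_range {Φ : ℕ → ℕ → ℕ} {A B u v : ℕ} (hu : u < A) (hv : v < B) :
    Φ u v ≤ ∑ u ∈ range A, ∑ v ∈ range B, Φ u v := by
  have h4 : Φ u v ≤ ∑ v ∈ range B, Φ u v :=
    Finset.single_le_sum (f := fun v => Φ u v) (fun _ _ => Nat.zero_le _) (mem_range.2 hv)
  exact h4.trans (Finset.single_le_sum (f := fun u => ∑ v ∈ range B, Φ u v)
    (fun _ _ => Nat.zero_le _) (mem_range.2 hu))

theorem noFold_red {r a b n m : ℕ} {Q : Rule r a b} (hQ : Invariant n Q)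
    (ha : (a + a) + n ≤ m) (hb : (b + b) + n ≤ m) {Φ : ℕ → ℕ → ℕ}
    (hΦ : ∀ G H : FGraph, chi (prodOf Q G H) ≤ Φ (chi G) (chi H)) : NoFold (redRule m Q) := by
  classical
  intro G H i x y x' y' hF hF' hne hr
  obtain ⟨C, -, hC⟩ := sat_ext m
  set B : ℕ := ∑ u ∈ range (a + m + 3), ∑ v ∈ range (b + m + 3), Φ u v with hB
  obtain ⟨G1, j, hj, hG1, -, hG1c, -, -⟩ := hC (copies G (B + 1) x y hF)
  obtain ⟨H1, j', hj', hH1, -, hH1c, -, -⟩ := hC (copies H (B + 1) x' y' hF')
  have h1 : chi (prodOf Q G1 H1) ≤ B := by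
    refine (hΦ G1 H1).trans (le_sum_range ?_ ?_)
    · have := chi_copies G (B + 1) x y hF
      omega
    · have := chi_copies H (B + 1) x' y' hF'
      omega
  obtain ⟨c⟩ := (colorable_chi (prodOf Q G1 H1)).mono h1
  let w : Fin (B + 1) → (prodOf Q G1 H1).V := fun p => (i, j ∘ cp x y p, j' ∘ cp x' y' p)
  have hadj : ∀ p q : Fin (B + 1), p < q → (prodOf Q G1 H1).graph.Adj (w p) (w q) := by
    intro p q hpq
    refine ⟨fun he => ?_, Or.inl ?_⟩
    · have h2 : j ∘ cp x y p = j ∘ cp x y q := (Prod.ext_iff.1 (Prod.ext_iff.1 he).2).1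
      have h3 : j' ∘ cp x' y' p = j' ∘ cp x' y' q := (Prod.ext_iff.1 (Prod.ext_iff.1 he).2).2
      refine hne ?_
      have h4 : x = y := funext fun s =>
        (cp_eq_lt hF hpq.ne s s).1 (inj_of_rel hj (congrFun h2 s))
      have h5 : x' = y' := funext fun s =>
        (cp_eq_lt hF' hpq.ne s s).1 (inj_of_rel hj' (congrFun h3 s))
      rw [h4, h5]
    · have e1 : tp G1 (Sum.elim (j ∘ cp x y p) (j ∘ cp x y q)) = tp G (Sum.elim x y) :=
        (tp_comp hj (cp x y p) (cp x y q)).trans (tp_copies hF hpq)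
      have e2 : tp H1 (Sum.elim (j' ∘ cp x' y' p) (j' ∘ cp x' y' q)) = tp H (Sum.elim x' y') :=
        (tp_comp hj' (cp x' y' p) (cp x' y' q)).trans (tp_copies hF' hpq)
      show Q i i G1 (Sum.elim (j ∘ cp x y p) (j ∘ cp x y q)) H1
        (Sum.elim (j' ∘ cp x' y' p) (j' ∘ cp x' y' q))
      rw [← red_iff hQ ha hb hG1 hH1, e1, e2]
      exact hr
  have hinj : Function.Injective fun p => c (w p) := by
    intro p q he
    by_contra hpq
    rcases lt_or_gt_of_ne hpq with h | h
    · exact c.valid (hadj p q h) he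
    · exact c.valid (hadj q p h) he.symm
  have h2 := Fintype.card_le_of_injective _ hinj
  rw [Fintype.card_fin, Fintype.card_fin] at h2
  omega

theorem noFold_loc {r a b : ℕ} {R : Fin (r + 1) → Fin (r + 1) → Tp a → Tp b → Prop}
    {Φ : ℕ → ℕ → ℕ} (hR : ∀ G H : FGraph, chi (locProd R G H) ≤ Φ (chi G) (chi H)) :
    NoFold R := by
  classical
  intro G H i x y x' y' hF hF' hne hr
  set B : ℕ := ∑ u ∈ range (a + 2), ∑ v ∈ range (b + 2), Φ u v with hB
  set G0 := copies G (B + 1) x y hF with hG0
  set H0 := copies H (B + 1) x' y' hF' with hH0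
  have h1 : chi (locProd R G0 H0) ≤ B := by
    refine (hR G0 H0).trans (le_sum_range ?_ ?_)
    · exact Nat.lt_succ_of_le (chi_copies G _ x y hF)
    · exact Nat.lt_succ_of_le (chi_copies H _ x' y' hF')
  obtain ⟨c⟩ := (colorable_chi (locProd R G0 H0)).mono h1
  let w : Fin (B + 1) → (locProd R G0 H0).V := fun p => (i, cp x y p, cp x' y' p)
  have hadj : ∀ p q : Fin (B + 1), p < q → (locProd R G0 H0).graph.Adj (w p) (w q) := by
    intro p q hpq
    refine ⟨fun he => ?_, Or.inl ?_⟩
    · have h2 : cp x y p = cp x y q := (Prod.ext_iff.1 (Prod.ext_iff.1 he).2).1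
      have h3 : cp x' y' p = cp x' y' q := (Prod.ext_iff.1 (Prod.ext_iff.1 he).2).2
      refine hne ?_
      have h4 : x = y := funext fun s => (cp_eq_lt hF hpq.ne s s).1 (congrFun h2 s)
      have h5 : x' = y' := funext fun s => (cp_eq_lt hF' hpq.ne s s).1 (congrFun h3 s)
      rw [h4, h5]
    · have e1 : tp G0 (Sum.elim (cp x y p) (cp x y q)) = tp G (Sum.elim x y) :=
        tp_copies hF hpq
      have e2 : tp H0 (Sum.elim (cp x' y' p) (cp x' y' q)) = tp H (Sum.elim x' y') :=
        tp_copies hF' hpq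
      show R i i (tp G0 (Sum.elim (cp x y p) (cp x y q)))
        (tp H0 (Sum.elim (cp x' y' p) (cp x' y' q)))
      rw [e1, e2]
      exact hr
  have hinj : Function.Injective fun p => c (w p) := by
    intro p q he
    by_contra hpq
    rcases lt_or_gt_of_ne hpq with h | h
    · exact c.valid (hadj p q h) he
    · exact c.valid (hadj q p h) he.symm
  have h2 := Fintype.card_le_of_injective _ hinj
  rw [Fintype.card_fin, Fintype.card_fin] at h2
  omega

theorem chi_bound {r a b C k l : ℕ} {G H P : FGraph} {Kc : ℝ} (hKc : 0 ≤ Kc) (hC : 0 < C)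
    (hP : chif P ≤ Kc) (hord : order P = (r + 1) * (order G ^ a * order H ^ b))
    (hG : order G ≤ C * 4 ^ (k + 1)) (hH : order H ≤ C * 4 ^ (l + 1)) :
    (chi P : ℝ) ≤ (Kc * (Real.log (r + 1) + (a + b) * (Real.log C + Real.log 4)) + 1) *
      (((k : ℝ) + 1) + ((l : ℝ) + 1)) := by
  have h1 := chi_le_log P
  have hN : (1 : ℝ) ≤ order P := by
    have : 0 < order P := Fintype.card_pos
    exact_mod_cast this
  have hlog : 0 ≤ Real.log (order P) := Real.log_nonneg hN
  have h3 : order P ≤ (r + 1) * ((C * 4 ^ (k + 1)) ^ a * (C * 4 ^ (l + 1)) ^ b) := by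
    rw [hord]
    exact Nat.mul_le_mul_left _ (Nat.mul_le_mul (Nat.pow_le_pow_left hG _)
      (Nat.pow_le_pow_left hH _))
  have hC1 : (1 : ℝ) ≤ C := by exact_mod_cast hC
  have hC0 : (0 : ℝ) < C := by linarith
  have hl4 : 0 ≤ Real.log 4 := Real.log_nonneg (by norm_num)
  have hlC : 0 ≤ Real.log C := Real.log_nonneg hC1
  have hr1 : 0 ≤ Real.log ((r : ℝ) + 1) := Real.log_nonneg (by
    have : (0 : ℝ) ≤ r := Nat.cast_nonneg r
    linarith)
  have ha : (0 : ℝ) ≤ a := Nat.cast_nonneg a
  have hb : (0 : ℝ) ≤ b := Nat.cast_nonneg b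
  have hk : (0 : ℝ) ≤ k := Nat.cast_nonneg k
  have hl : (0 : ℝ) ≤ l := Nat.cast_nonneg l
  have h4 : Real.log (order P) ≤ (Real.log (r + 1) + (a + b) * (Real.log C + Real.log 4)) *
      (((k : ℝ) + 1) + ((l : ℝ) + 1)) := by
    have h5 : (order P : ℝ) ≤
        ((r : ℝ) + 1) * (((C : ℝ) * 4 ^ (k + 1)) ^ a * ((C : ℝ) * 4 ^ (l + 1)) ^ b) := by
      exact_mod_cast h3
    have h6 := Real.log_le_log (by linarith) h5
    rw [Real.log_mul (by positivity) (by positivity), Real.log_mul (by positivity) (by positivity),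
      Real.log_pow, Real.log_pow, Real.log_mul (by positivity) (by positivity),
      Real.log_mul (by positivity) (by positivity), Real.log_pow, Real.log_pow] at h6
    push_cast at h6
    refine h6.trans ?_
    have e1 : 0 ≤ a * (((l : ℝ) + 1) * Real.log 4) := by positivity
    have e2 : 0 ≤ b * (((k : ℝ) + 1) * Real.log 4) := by positivity
    have e3 : 0 ≤ Real.log ((r : ℝ) + 1) * (k + l + 1) := by positivity
    have e4 : 0 ≤ (a + b) * (Real.log C * (k + l + 1)) := by positivity
    nlinarith
  calc (chi P : ℝ) ≤ chif P * Real.log (order P) + 1 := h1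
    _ ≤ Kc * Real.log (order P) + 1 := by gcongr
    _ ≤ Kc * ((Real.log (r + 1) + (a + b) * (Real.log C + Real.log 4)) *
        (((k : ℝ) + 1) + ((l : ℝ) + 1))) + 1 := by
      gcongr
    _ ≤ _ := by nlinarith

theorem order_prodOf {r a b : ℕ} (Q : Rule r a b) (G H : FGraph) :
    order (prodOf Q G H) = (r + 1) * (order G ^ a * order H ^ b) := by
  have h5 : order (prodOf Q G H) = Fintype.card (Fin (r + 1) × (Fin a → G.V) ×
    (Fin b → H.V)) := rfl
  rw [h5, Fintype.card_prod, Fintype.card_prod, Fintype.card_fun, Fintype.card_fun,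
    Fintype.card_fin, Fintype.card_fin, Fintype.card_fin]
  rfl

theorem order_locProd {r a b : ℕ} (R : Fin (r + 1) → Fin (r + 1) → Tp a → Tp b → Prop)
    (G H : FGraph) : order (locProd R G H) = (r + 1) * (order G ^ a * order H ^ b) := by
  have h5 : order (locProd R G H) = Fintype.card (Fin (r + 1) × (Fin a → G.V) ×
    (Fin b → H.V)) := rfl
  rw [h5, Fintype.card_prod, Fintype.card_prod, Fintype.card_fun, Fintype.card_fun,
    Fintype.card_fin, Fintype.card_fin, Fintype.card_fin]
  rfl

theorem invariant_main (n r a b : ℕ) :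
    ∃ (F : ℕ → FGraph) (K : ℝ), (∀ k, k ≤ chi (F k) ∧ (chi (F k) : ℝ) ≤ k + K ∧
      (order (F k) : ℝ) ≤ K * 4 ^ k) ∧
      ∀ Q : Rule r a b, Invariant n Q → ∀ Φ : ℕ → ℕ → ℕ,
        (∀ G H : FGraph, chi (prodOf Q G H) ≤ Φ (chi G) (chi H)) →
        ∀ k l, (chi (prodOf Q (F k) (F l)) : ℝ) ≤ K * (k + l + 1) := by
  classical
  set m : ℕ := (a + a) + (b + b) + n with hm
  have ha : (a + a) + n ≤ m := by omega
  have hb : (b + b) + n ≤ m := by omega
  obtain ⟨C, hC, hext⟩ := sat_ext m
  choose E j hj hsat hchi1 hchi2 hchif hord using hext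
  set Kc : ℝ := ((r + 1) * (cst a * cst b) : ℕ) * ((4 + (m + 1) : ℝ) ^ a * (4 + (m + 1) : ℝ) ^ b)
    with hKc
  have hKc0 : 0 ≤ Kc := by positivity
  set K1 : ℝ := Kc * (Real.log (r + 1) + (a + b) * (Real.log C + Real.log 4)) + 1 with hK1
  have hC1 : (1 : ℝ) ≤ C := by exact_mod_cast hC
  have hK10 : 0 ≤ K1 := by
    have hl4 : 0 ≤ Real.log 4 := Real.log_nonneg (by norm_num)
    have hlC : 0 ≤ Real.log C := Real.log_nonneg hC1
    have hr1 : 0 ≤ Real.log ((r : ℝ) + 1) := Real.log_nonneg (by
      have : (0 : ℝ) ≤ r := Nat.cast_nonneg r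
      linarith)
    positivity
  have hordF : ∀ k, order (E (shift k)) ≤ C * 4 ^ (k + 1) := fun k =>
    (hord (shift k)).trans (Nat.mul_le_mul_left _ (order_shift k))
  have hm0 : (0 : ℝ) ≤ m := Nat.cast_nonneg m
  refine ⟨fun k => E (shift k), (m + 2) + 4 * C + 2 * K1, fun k => ⟨?_, ?_, ?_⟩,
    fun Q hQ Φ hΦ k l => ?_⟩
  · have h1 := hchi1 (shift k)
    rw [chi_shift] at h1
    exact (Nat.le_succ k).trans h1
  · have h1 := hchi2 (shift k)
    rw [chi_shift] at h1
    have h2 : (chi (E (shift k)) : ℝ) ≤ k + 1 + (m + 1) := by exact_mod_cast h1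
    linarith
  · have h1 : (order (E (shift k)) : ℝ) ≤ C * 4 ^ (k + 1) := by exact_mod_cast hordF k
    have h2 : (0 : ℝ) < 4 ^ k := by positivity
    refine h1.trans ?_
    rw [pow_succ]
    nlinarith
  · have h1 : chif (prodOf Q (E (shift k)) (E (shift l))) ≤ Kc := by
      rw [prodOf_eq hQ ha hb (hsat _) (hsat _)]
      refine (chif_of_noFold (noFold_red hQ ha hb hΦ) _ _).trans ?_
      rw [hKc]
      refine mul_le_mul_of_nonneg_left ?_ (Nat.cast_nonneg _)
      have e0 : ∀ k, chif (E (shift k)) ≤ 4 + (m + 1) := fun k => by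
        have e1 := hchif (shift k)
        have e2 := chif_shift k
        linarith
      have e1 := pow_le_pow_left₀ (chif_nonneg _) (e0 k) a
      have e2 := pow_le_pow_left₀ (chif_nonneg _) (e0 l) b
      exact mul_le_mul e1 e2 (pow_nonneg (chif_nonneg _) _) (by positivity)
    have h2 := chi_bound (k := k) (l := l) hKc0 hC h1 (order_prodOf Q _ _) (hordF k) (hordF l)
    rw [← hK1] at h2
    have hk : (0 : ℝ) ≤ k := Nat.cast_nonneg k
    have hl : (0 : ℝ) ≤ l := Nat.cast_nonneg l
    have hp : (0 : ℝ) ≤ ((m : ℝ) + 2 + 4 * C) * (k + l + 1) := by positivity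
    nlinarith

theorem not_multiplicative_of_family {P : FGraph → FGraph → FGraph} {F : ℕ → FGraph} {K : ℝ}
    (hF : ∀ k, k ≤ chi (F k)) (h : ∀ k l, (chi (P (F k) (F l)) : ℝ) ≤ K * (k + l + 1)) {c : ℝ}
    (hc : 0 < c) : ¬ Multiplicative c P := by
  intro hM
  obtain ⟨k, hk⟩ := exists_nat_gt (3 * |K| / c)
  have h1 := (hM (F (k + 1)) (F (k + 1))).1
  have h2 := h1.trans (h (k + 1) (k + 1))
  push_cast at h2
  have hk0 : (0 : ℝ) ≤ k := Nat.cast_nonneg k
  have h3 : (k : ℝ) + 1 ≤ chi (F (k + 1)) := by exact_mod_cast hF (k + 1)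
  have h4 : c * (((k : ℝ) + 1) * (k + 1)) ≤ c * (chi (F (k + 1)) * chi (F (k + 1))) := by
    gcongr
  have h5 : K * ((k : ℝ) + 1 + (k + 1) + 1) ≤ (3 * |K|) * (k + 1) := by
    have h6 : K ≤ |K| := le_abs_self K
    have h7 : 0 ≤ |K| := abs_nonneg K
    calc K * ((k : ℝ) + 1 + (k + 1) + 1) ≤ |K| * ((k : ℝ) + 1 + (k + 1) + 1) := by gcongr
      _ ≤ (3 * |K|) * (k + 1) := by nlinarith
  rw [div_lt_iff₀ hc] at hk
  have h6 : (c * ((k : ℝ) + 1)) * (k + 1) ≤ (3 * |K|) * (k + 1) := by
    calc (c * ((k : ℝ) + 1)) * (k + 1) = c * (((k : ℝ) + 1) * (k + 1)) := by ring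
      _ ≤ _ := h4.trans (h2.trans h5)
  have h7 := le_of_mul_le_mul_right h6 (by positivity)
  nlinarith

/-- Formulas of infinitary logic about two graphs, with the variables `α` for vertices of the first
graph and the variables `β` for vertices of the second graph. Conjunctions can be infinite. -/
inductive Fml (α β : Type) : Type 1
  | eq₁ (s t : α) : Fml α β
  | adj₁ (s t : α) : Fml α β
  | eq₂ (s t : β) : Fml α β
  | adj₂ (s t : β) : Fml α β
  | neg (φ : Fml α β) : Fml α β
  | conj (I : Type) (φ : I → Fml α β) : Fml α β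
  | ex₁ (s : α) (φ : Fml α β) : Fml α β
  | ex₂ (s : β) (φ : Fml α β) : Fml α β

/-- The formula holds in the graphs `G`, `H` for the values `u`, `w` of the variables, where `none`
is for a variable without a value (atomic formulas with such a variable do not hold). -/
def Holds {α β : Type} (G H : FGraph) : Fml α β → (α → Option G.V) → (β → Option H.V) → Prop
  | .eq₁ s t, u, _ => ∃ x, u s = some x ∧ u t = some x
  | .adj₁ s t, u, _ => ∃ x y, u s = some x ∧ u t = some y ∧ G.graph.Adj x y
  | .eq₂ s t, _, w => ∃ x, w s = some x ∧ w t = some x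
  | .adj₂ s t, _, w => ∃ x y, w s = some x ∧ w t = some y ∧ H.graph.Adj x y
  | .neg φ, u, w => ¬ Holds G H φ u w
  | .conj I φ, u, w => ∀ i : I, Holds G H (φ i) u w
  | .ex₁ s φ, u, w => ∃ v : G.V, Holds G H φ (move u s v) w
  | .ex₂ s φ, u, w => ∃ v : H.V, Holds G H φ u (move w s v)

/-- The rule given by the formulas `φ i j` with the free variables `Fin a ⊕ Fin a` for vertices of
the first graph, `Fin b ⊕ Fin b` for vertices of the second graph, and `n` more variables for
each of them. -/
def ruleOf {n r a b : ℕ}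
    (φ : Fin (r + 1) → Fin (r + 1) → Fml ((Fin a ⊕ Fin a) ⊕ Fin n) ((Fin b ⊕ Fin b) ⊕ Fin n)) :
    Rule r a b := fun i j G z H w =>
  Holds G H (φ i j) (Sum.elim (fun s => some (z s)) fun _ => none)
    (Sum.elim (fun s => some (w s)) fun _ => none)

theorem SameType.exists_eq {κ : Type} {G : FGraph} {u : κ → Option G.V} {G' : FGraph}
    {u' : κ → Option G'.V} (h : SameType G u G' u') {s t : κ}
    (h1 : ∃ x, u s = some x ∧ u t = some x) : ∃ x, u' s = some x ∧ u' t = some x := by
  obtain ⟨x, hs, ht⟩ := h1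
  obtain ⟨x', hs'⟩ := Option.ne_none_iff_exists'.1 fun h2 => by
    rw [(h.1 s).2 h2] at hs
    exact absurd hs (by simp)
  obtain ⟨y', ht'⟩ := Option.ne_none_iff_exists'.1 fun h2 => by
    rw [(h.1 t).2 h2] at ht
    exact absurd ht (by simp)
  have h3 := h.2 s t x x x' y' hs ht hs' ht'
  have h4 : rel G x x = Rel.eq := (rel_eq_iff G x x).2 rfl
  rw [h4] at h3
  have h5 := (rel_eq_iff G' x' y').1 h3.symm
  exact ⟨x', hs', by rw [ht', h5]⟩

theorem SameType.exists_adj {κ : Type} {G : FGraph} {u : κ → Option G.V} {G' : FGraph}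
    {u' : κ → Option G'.V} (h : SameType G u G' u') {s t : κ}
    (h1 : ∃ x y, u s = some x ∧ u t = some y ∧ G.graph.Adj x y) :
    ∃ x y, u' s = some x ∧ u' t = some y ∧ G'.graph.Adj x y := by
  obtain ⟨x, y, hs, ht, hxy⟩ := h1
  obtain ⟨x', hs'⟩ := Option.ne_none_iff_exists'.1 fun h2 => by
    rw [(h.1 s).2 h2] at hs
    exact absurd hs (by simp)
  obtain ⟨y', ht'⟩ := Option.ne_none_iff_exists'.1 fun h2 => by
    rw [(h.1 t).2 h2] at ht
    exact absurd ht (by simp)
  have h3 := h.2 s t x y x' y' hs ht hs' ht'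
  refine ⟨x', y', hs', ht', ?_⟩
  rw [← rel_adj_iff, ← h3, rel_adj_iff]
  exact hxy

theorem invariant_ruleOf {n r a b : ℕ}
    (φ : Fin (r + 1) → Fin (r + 1) → Fml ((Fin a ⊕ Fin a) ⊕ Fin n) ((Fin b ⊕ Fin b) ⊕ Fin n)) :
    Invariant n (ruleOf φ) := by
  rintro i j G z H w G' z' H' w' ⟨W, hW0, hW⟩ ⟨X, hX0, hX⟩ h
  have key : ∀ (ψ : Fml ((Fin a ⊕ Fin a) ⊕ Fin n) ((Fin b ⊕ Fin b) ⊕ Fin n)) u u' x x',
      W u u' → X x x' → (Holds G H ψ u x ↔ Holds G' H' ψ u' x') := by
    intro ψ
    induction ψ with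
    | eq₁ s t =>
      exact fun u u' x x' hu hx => ⟨fun h => (hW u u' hu).1.exists_eq h,
        fun h => (hW u u' hu).1.symm.exists_eq h⟩
    | adj₁ s t =>
      exact fun u u' x x' hu hx => ⟨fun h => (hW u u' hu).1.exists_adj h,
        fun h => (hW u u' hu).1.symm.exists_adj h⟩
    | eq₂ s t =>
      exact fun u u' x x' hu hx => ⟨fun h => (hX x x' hx).1.exists_eq h,
        fun h => (hX x x' hx).1.symm.exists_eq h⟩
    | adj₂ s t =>
      exact fun u u' x x' hu hx => ⟨fun h => (hX x x' hx).1.exists_adj h,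
        fun h => (hX x x' hx).1.symm.exists_adj h⟩
    | neg ψ ih => exact fun u u' x x' hu hx => not_congr (ih u u' x x' hu hx)
    | conj I ψ ih => exact fun u u' x x' hu hx => forall_congr' fun i => ih i u u' x x' hu hx
    | ex₁ s ψ ih =>
      intro u u' x x' hu hx
      constructor
      · rintro ⟨v, hv⟩
        obtain ⟨v', hv'⟩ := ((hW u u' hu).2 s).1 v
        exact ⟨v', (ih _ _ x x' hv' hx).1 hv⟩
      · rintro ⟨v', hv'⟩
        obtain ⟨v, hv⟩ := ((hW u u' hu).2 s).2 v'
        exact ⟨v, (ih _ _ x x' hv hx).2 hv'⟩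
    | ex₂ s ψ ih =>
      intro u u' x x' hu hx
      constructor
      · rintro ⟨v, hv⟩
        obtain ⟨v', hv'⟩ := ((hX x x' hx).2 s).1 v
        exact ⟨v', (ih u u' _ _ hu hv').1 hv⟩
      · rintro ⟨v', hv'⟩
        obtain ⟨v, hv⟩ := ((hX x x' hx).2 s).2 v'
        exact ⟨v, (ih u u' _ _ hu hv).2 hv'⟩
  exact (key (φ i j) _ _ _ _ hW0 hX0).1 h

theorem one_le_chif (G : FGraph) : 1 ≤ chif G := by
  classical
  refine le_csInf ?_ ?_
  · obtain ⟨c⟩ := G.graph.colorable_of_fintype
    refine ⟨_, Fintype.card G.V, 1, one_pos, rfl, fun v => {c v}, fun v => card_singleton _,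
      fun u v h => ?_⟩
    rw [Finset.disjoint_singleton]
    exact c.valid h
  · rintro r ⟨a, b, hb, rfl, f, hf, -⟩
    obtain ⟨v0⟩ := G.ne
    have hba : b ≤ a := by
      rw [← hf v0]
      exact (Finset.card_le_univ _).trans (by rw [Fintype.card_fin])
    rw [one_le_div (by exact_mod_cast hb)]
    exact_mod_cast hba

theorem csum_shift' (k l : ℕ) : chi (csum (shift k) (shift l)) ≤ 43 * max (k + 1) (l + 1) := by
  classical
  refine chi_le ?_
  set b := 2 ^ (2 ^ (k + 1) - 2) with hb
  set b' := 2 ^ (2 ^ (l + 1) - 2) with hb'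
  have hb0 : 0 < b := by positivity
  have hb0' : 0 < b' := by positivity
  set M := max (k + 1) (l + 1) with hM
  refine colorable_of_cover (C := (Fin (2 ^ (k + 1)) → Bool) × (Fin (2 ^ (l + 1)) → Bool))
    (csum (shift k) (shift l)).graph (b * b') (43 * M)
    (fun p => cols k p.1 ×ˢ cols l p.2) (fun p => ?_) ?_ ?_
  · rw [Finset.card_product, card_cols, card_cols]
  · rintro p q (h | h)
    · rw [Finset.disjoint_left]
      rintro ⟨g, g'⟩ h1 h2
      rw [Finset.mem_product] at h1 h2
      exact Finset.disjoint_left.1 (disjoint_cols h) h1.1 h2.1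
    · rw [Finset.disjoint_left]
      rintro ⟨g, g'⟩ h1 h2
      rw [Finset.mem_product] at h1 h2
      exact Finset.disjoint_left.1 (disjoint_cols h) h1.2 h2.2
  · have h1 : Fintype.card ((Fin (2 ^ (k + 1)) → Bool) × (Fin (2 ^ (l + 1)) → Bool)) =
        16 * (b * b') := by
      rw [Fintype.card_prod, Fintype.card_pi, Fintype.card_pi, Finset.prod_const, Finset.prod_const,
        Fintype.card_bool, Finset.card_univ, Finset.card_univ, Fintype.card_fin, Fintype.card_fin,
        two_pow_eq, two_pow_eq]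
      ring
    have h2 : Fintype.card (csum (shift k) (shift l)).V ≤ 16 ^ M := by
      have h3 : Fintype.card (csum (shift k) (shift l)).V = order (shift k) * order (shift l) :=
        Fintype.card_prod _ _
      rw [h3]
      have h4 : order (shift k) ≤ 4 ^ M :=
        (order_shift k).trans (Nat.pow_le_pow_right (by norm_num) (le_max_left _ _))
      have h5 : order (shift l) ≤ 4 ^ M :=
        (order_shift l).trans (Nat.pow_le_pow_right (by norm_num) (le_max_right _ _))
      refine (Nat.mul_le_mul h4 h5).trans (le_of_eq ?_)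
      rw [← mul_pow]
      norm_num
    have hM0 : M ≠ 0 := by
      have : k + 1 ≤ M := le_max_left _ _
      omega
    rw [h1]
    have h4 : 16 * (b * b') - b * b' = 15 * (b * b') := by omega
    rw [h4, mul_pow 15 (b * b'), mul_pow 16 (b * b'), ← mul_assoc]
    refine Nat.mul_lt_mul_of_pos_right ?_ (pow_pos (Nat.mul_pos hb0 hb0') _)
    calc Fintype.card (csum (shift k) (shift l)).V * 15 ^ (43 * M)
        ≤ 16 ^ M * 15 ^ (43 * M) := Nat.mul_le_mul_right _ h2
      _ = (16 * 15 ^ 43) ^ M := by rw [mul_pow, ← pow_mul]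
      _ < (16 ^ 43) ^ M := Nat.pow_lt_pow_left (by norm_num) hM0
      _ = 16 ^ (43 * M) := by rw [← pow_mul]

/-- The conjunction of two formulas. -/
def Fml.and {α β : Type} (φ ψ : Fml α β) : Fml α β := .conj Bool fun b => bif b then φ else ψ

/-- The disjunction of two formulas. -/
def Fml.or {α β : Type} (φ ψ : Fml α β) : Fml α β := .neg (.and (.neg φ) (.neg ψ))

theorem holds_and {α β : Type} {G H : FGraph} {φ ψ : Fml α β} {u : α → Option G.V}
    {w : β → Option H.V} : Holds G H (φ.and ψ) u w ↔ Holds G H φ u w ∧ Holds G H ψ u w := by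
  show (∀ b : Bool, Holds G H (bif b then φ else ψ) u w) ↔ _
  rw [Bool.forall_bool]
  exact and_comm

theorem holds_or {α β : Type} {G H : FGraph} {φ ψ : Fml α β} {u : α → Option G.V}
    {w : β → Option H.V} : Holds G H (φ.or ψ) u w ↔ Holds G H φ u w ∨ Holds G H ψ u w := by
  show ¬ Holds G H ((Fml.neg φ).and (Fml.neg ψ)) u w ↔ _
  rw [holds_and]
  show ¬ (¬ Holds G H φ u w ∧ ¬ Holds G H ψ u w) ↔ _
  tauto

/-- The formula of the lexicographic product: `x` and `y` are adjacent, or `x = y` and `x'` and `y'`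
are adjacent. -/
def lexFml : Fml ((Fin 1 ⊕ Fin 1) ⊕ Fin 0) ((Fin 1 ⊕ Fin 1) ⊕ Fin 0) :=
  (Fml.adj₁ (.inl (.inl 0)) (.inl (.inr 0))).or
    ((Fml.eq₁ (.inl (.inl 0)) (.inl (.inr 0))).and (Fml.adj₂ (.inl (.inl 0)) (.inl (.inr 0))))

/-- The rule of the lexicographic product. -/
def lexRule : Rule 0 1 1 := ruleOf fun _ _ => lexFml

theorem lexRule_iff (i j : Fin 1) (G : FGraph) (z : Fin 1 ⊕ Fin 1 → G.V) (H : FGraph)
    (w : Fin 1 ⊕ Fin 1 → H.V) : lexRule i j G z H w ↔
      (G.graph.Adj (z (.inl 0)) (z (.inr 0)) ∨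
        (z (.inl 0) = z (.inr 0) ∧ H.graph.Adj (w (.inl 0)) (w (.inr 0)))) := by
  unfold lexRule ruleOf lexFml
  rw [holds_or, holds_and]
  refine or_congr ?_ (and_congr ?_ ?_)
  · constructor
    · rintro ⟨x, y, h1, h2, h3⟩
      rw [← Option.some_injective _ h1, ← Option.some_injective _ h2] at h3
      exact h3
    · exact fun h => ⟨_, _, rfl, rfl, h⟩
  · constructor
    · rintro ⟨x, h1, h2⟩
      exact (Option.some_injective _ h1).trans (Option.some_injective _ h2).symm
    · exact fun h => ⟨_, rfl, congrArg some h.symm⟩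
  · constructor
    · rintro ⟨x, y, h1, h2, h3⟩
      rw [← Option.some_injective _ h1, ← Option.some_injective _ h2] at h3
      exact h3
    · exact fun h => ⟨_, _, rfl, rfl, h⟩

theorem chi_lexRule (G H : FGraph) : chi (prodOf lexRule G H) = chi (lex G H) := by
  refine le_antisymm (chi_mono (G := prodOf lexRule G H) (H := lex G H)
    (fun u => (u.2.1 0, u.2.2 0)) ?_) (chi_mono (G := lex G H) (H := prodOf lexRule G H)
    (fun p => ((0 : Fin 1), (fun _ => p.1), fun _ => p.2)) ?_)
  · rintro ⟨i, x, x'⟩ ⟨j, y, y'⟩ ⟨-, h | h⟩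
    · exact (lexRule_iff _ _ _ _ _ _).1 h
    · exact SimpleGraph.Adj.symm (G := (lex G H).graph) (u := (y 0, y' 0)) (v := (x 0, x' 0))
        ((lexRule_iff _ _ _ _ _ _).1 h)
  · rintro ⟨x, x'⟩ ⟨y, y'⟩ h
    refine ⟨fun he => ?_, Or.inl ((lexRule_iff _ _ _ _ _ _).2 h)⟩
    have h1 : x = y := congrFun (Prod.ext_iff.1 (Prod.ext_iff.1 he).2).1 0
    have h2 : x' = y' := congrFun (Prod.ext_iff.1 (Prod.ext_iff.1 he).2).2 0
    subst h1
    subst h2
    exact (lex G H).graph.irrefl h

theorem log_order_product2 {P : FGraph → FGraph → FGraph} (hP : PolySize P) :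
    ∃ L : ℝ, 0 ≤ L ∧ ∀ k l : ℕ, Real.log (order (P (shift k) (shift l))) ≤
      L * (((k : ℝ) + 1) + ((l : ℝ) + 1)) := by
  obtain ⟨D, hD⟩ := hP
  have h17 : 0 ≤ Real.log 5 := Real.log_nonneg (by norm_num)
  refine ⟨D * Real.log 5, by positivity, fun k l => ?_⟩
  set G := P (shift k) (shift l) with hG
  have hN : (1 : ℝ) ≤ order G := by
    have : 0 < order G := Fintype.card_pos
    exact_mod_cast this
  have h3 : order G ≤ (5 ^ (k + 1) * 5 ^ (l + 1)) ^ D := by
    refine (hD _ _).trans (Nat.pow_le_pow_left ?_ _)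
    have h4 : order (shift k) * order (shift l) ≤ 4 ^ (k + 1) * 4 ^ (l + 1) :=
      Nat.mul_le_mul (order_shift k) (order_shift l)
    have h5 : 4 ^ (k + 1) < 5 ^ (k + 1) :=
      Nat.pow_lt_pow_left (by norm_num) (Nat.succ_ne_zero k)
    have h6 : 4 ^ (l + 1) < 5 ^ (l + 1) :=
      Nat.pow_lt_pow_left (by norm_num) (Nat.succ_ne_zero l)
    have h7 : 4 ^ (k + 1) * 4 ^ (l + 1) < 5 ^ (k + 1) * 5 ^ (l + 1) := Nat.mul_lt_mul'' h5 h6
    omega
  have h5 : (order G : ℝ) ≤ ((5 : ℝ) ^ (k + 1) * (5 : ℝ) ^ (l + 1)) ^ D := by exact_mod_cast h3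
  have h6 := Real.log_le_log (by linarith) h5
  rw [Real.log_pow, Real.log_mul (by positivity) (by positivity), Real.log_pow,
    Real.log_pow] at h6
  push_cast at h6
  linarith

/-- A product of polynomial size whose chromatic number is at least a constant times the product of
the chromatic numbers creates fractional chromatic number. -/
theorem chif_of_lower {P : FGraph → FGraph → FGraph} (hP : PolySize P) {c : ℝ}
    (hc : 0 < c) (hM : ∀ G H : FGraph, c * (chi G * chi H) ≤ (chi (P G H) : ℝ)) :
    ∃ c' : ℝ, 0 < c' ∧ ∀ k l : ℕ,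
      c' * min ((k : ℝ) + 1) ((l : ℝ) + 1) ≤ chif (P (shift k) (shift l)) := by
  obtain ⟨L, hL, h⟩ := log_order_product2 hP
  refine ⟨c / (2 * (L + 1)), by positivity, fun k l => ?_⟩
  have h1 := hM (shift k) (shift l)
  rw [chi_shift, chi_shift] at h1
  push_cast at h1
  have h2 := chi_le_log (P (shift k) (shift l))
  have h3 := h k l
  have h4 := one_le_chif (P (shift k) (shift l))
  set f := chif (P (shift k) (shift l)) with hf
  have hk : (0 : ℝ) ≤ k := Nat.cast_nonneg k
  have hl : (0 : ℝ) ≤ l := Nat.cast_nonneg l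
  set m := min ((k : ℝ) + 1) ((l : ℝ) + 1) with hm
  set M := max ((k : ℝ) + 1) ((l : ℝ) + 1) with hMM
  have e1 : m * M = ((k : ℝ) + 1) * ((l : ℝ) + 1) := min_mul_max _ _
  have e2 : ((k : ℝ) + 1) + ((l : ℝ) + 1) ≤ 2 * M := by
    have := le_max_left ((k : ℝ) + 1) ((l : ℝ) + 1)
    have := le_max_right ((k : ℝ) + 1) ((l : ℝ) + 1)
    linarith
  have e3 : 1 ≤ M := by
    have := le_max_left ((k : ℝ) + 1) ((l : ℝ) + 1)
    linarith
  have h5 : f * Real.log (order (P (shift k) (shift l))) ≤ f * (L * (2 * M)) :=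
    mul_le_mul_of_nonneg_left (h3.trans (mul_le_mul_of_nonneg_left e2 hL)) (by linarith)
  have h6 : (c * m) * M ≤ (f * (2 * (L + 1))) * M := by
    have e4 : c * (((k : ℝ) + 1) * ((l : ℝ) + 1)) = (c * m) * M := by rw [← e1]; ring
    rw [e4] at h1
    nlinarith
  have h7 : c * m ≤ f * (2 * (L + 1)) := le_of_mul_le_mul_right h6 (by linarith)
  rw [div_mul_eq_mul_div, div_le_iff₀ (by positivity)]
  exact h7

end Pool.Agent.H829.GraphProducts
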